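import Pool.Agent.U710.LE.G

set_option autoImplicit false

/-!
# Large savings for exponential sums over the integer parts of regular functions
-/

namespace Pool.Agent.U710.LE

open Finset Filter
open Pool.Agent.H469R2.NK (e norm_e e_add)

theorem phase_big (ζ : ℝ) (hζ : 0 < ζ) (hζ1 : ζ ≤ 1) (a : ℕ) (σ ρ : ℝ) (hσ : 2 / 3 < σ) (hρ0 : 0 < ρ)
    (hρ1 : ρ < 3 * σ - 2) (hρ2 : ρ < σ) (hρ3 : ρ < 1) :
    ∃ k0 : ℕ, ∀ k : ℕ, k0 ≤ k → ∀ x h : ℕ,
    ∀ f : ℝ → ℝ, Reg ζ a k x h f → (x : ℝ) ≤ (k : ℝ) ^ a * h → (k : ℝ) ^ σ ≤ Real.log x → Real.log x ≤ k →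
    ∀ y D : ℝ, 0 ≤ D → D ≤ (k : ℝ) ^ ρ → Real.exp (-D) ≤ |y| → |y| ≤ Real.exp D →
    ‖∑ b ∈ Icc 1 h, e (y * f ((x + b : ℕ) : ℝ))‖ ≤ h * Real.exp (-D) := by
  obtain ⟨C, c, δ, X0, hC, hc, hδ, hδ1, hL⟩ := large_F ζ hζ hζ1
  have hev := (tendsto_natCast_atTop_atTop (R := ℝ)).eventually
    ((ev_lg (a + 1 : ℕ) δ σ (by positivity) hδ (by linarith)).and
    ((Pool.Agent.U710.NB.ev_rpow (1 / 3) 1 (1 / 24) (by norm_num) (by norm_num)).and
    ((Pool.Agent.U710.NB.ev_rpow (1 / 3) σ (1 / 2) (by linarith) (by norm_num)).and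
    ((Pool.Agent.U710.NB.ev_rpow ρ 1 (1 / 20) hρ3 (by norm_num)).and
    ((ev_lg (C + 10) (c / 16) (3 * σ - 2) (by positivity) (by positivity) (by linarith)).and
    ((ev_lg (10 * (a + 10) : ℕ) 1 σ (by positivity) (by norm_num) (by linarith)).and
    ((Pool.Agent.U710.NB.ev_const (Real.log (X0 + 1) + 100) σ 1 (by linarith) (by norm_num)).and
    ((eventually_ge_atTop (100 : ℝ)).and
    ((Pool.Agent.U710.NB.ev_rpow (2 / 3) σ 1 (by linarith) (by norm_num)).and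
    ((Pool.Agent.U710.NB.ev_rpow ρ σ (1 / 100) hρ2 (by norm_num)).and
      (Pool.Agent.U710.NB.ev_rpow ρ (3 * σ - 2) (c / 16) hρ1 (by positivity))))))))))))
  obtain ⟨k0, hk0⟩ := eventually_atTop.1 hev
  refine ⟨k0 + 100, ?_⟩
  intro k hk x h f hf hxh hσx hxk y D hD0 hD hy1 hy2
  obtain ⟨E1, E2, E3, E4, E5, E6, E7, E8, E9, E10, E11⟩ := hk0 k (by omega)
  obtain ⟨l, hl⟩ : ∃ l : ℝ, l = Real.log x := ⟨_, rfl⟩
  rw [← hl] at hσx hxk
  have hk1 : (1 : ℝ) ≤ k := by linarith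
  have hkp : (0 : ℝ) < k := by linarith
  have hlogk : 0 ≤ Real.log k := Real.log_nonneg hk1
  have hlogX : 0 ≤ Real.log ((X0 : ℝ) + 1) := Real.log_nonneg (by linarith [(Nat.cast_nonneg X0 : (0 : ℝ) ≤ X0)])
  have hl10 : 100 ≤ l := by linarith
  have hl0 : 0 < l := by linarith
  have hx0 : x ≠ 0 := by
    rintro rfl
    rw [hl] at hl10
    norm_num at hl10
  have hx1 : 1 ≤ x := by omega
  have hxR : (0 : ℝ) < x := by exact_mod_cast hx1
  have hxe : (x : ℝ) = Real.exp l := by rw [hl, Real.exp_log hxR]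
  have hke := kexp k hkp
  have hG2 : (k : ℝ) ^ a ≤ Real.exp (δ * l) := by
    rw [hke]
    apply Real.exp_le_exp.2
    have h1 : δ * (k : ℝ) ^ σ ≤ δ * l := mul_le_mul_of_nonneg_left hσx hδ.le
    have h2 : ((a + 1 : ℕ) : ℝ) * (1 + Real.log k) = a * Real.log k + (a + 1 + Real.log k) := by push_cast; ring
    have h3 : (0 : ℝ) ≤ a := Nat.cast_nonneg _
    linarith
  rw [Real.rpow_one] at E4
  obtain ⟨F, hF⟩ : ∃ F : ℝ, F = |y| * 2 ^ k := ⟨_, rfl⟩
  have hy0 : 0 < |y| := lt_of_lt_of_le (Real.exp_pos _) hy1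
  have hF0 : 0 < F := by rw [hF]; positivity
  have hlogy : |Real.log (|y|)| ≤ D := by
    rw [abs_le]
    constructor
    · rw [Real.le_log_iff_exp_le hy0]
      exact hy1
    · rw [Real.log_le_iff_le_exp hy0]
      exact hy2
  have hlogF0 : Real.log F = k * Real.log 2 + Real.log (|y|) := by
    rw [hF, Real.log_mul hy0.ne' (by positivity), Real.log_pow]
    ring
  have h300 : 300 ≤ 300 / ζ := by
    rw [le_div_iff₀ hζ]
    linarith
  -- the function
  have hgu : ∀ j : ℕ, 1 ≤ j → j ≤ k → ∀ t ∈ Set.Icc (x : ℝ) (x + h),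
      |iteratedDeriv j (fun t => y * f t) t| / j.factorial ≤ F * ((k : ℝ) ^ a / x) ^ j := by
    intro j hj1 hj2 t ht
    rw [iteratedDeriv_const_mul_field y f, abs_mul, mul_div_assoc, hF, mul_assoc]
    exact mul_le_mul_of_nonneg_left (hf.upper j hj1 hj2 t ht) (abs_nonneg _)
  have hgl : ∀ j : ℕ, 1 ≤ j → (j : ℝ) ≤ (1 + ζ) * (k * Real.log 2 / l) + 300 / ζ → ∀ t ∈ Set.Icc (x : ℝ) (x + h),
      F / ((k : ℝ) ^ a * x) ^ j ≤ |iteratedDeriv j (fun t => y * f t) t| / j.factorial := by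
    intro j hj1 hj2 t ht
    rw [iteratedDeriv_const_mul_field y f, abs_mul, mul_div_assoc, hF, mul_div_assoc]
    exact mul_le_mul_of_nonneg_left (hf.lower j hj1 (by rw [← hl]; exact hj2) t ht) (abs_nonneg _)
  have hgs : ∀ t ∈ Set.Icc (x : ℝ) (x + h), ContDiffAt ℝ ((⊤ : ℕ∞) : WithTop ℕ∞) (fun t => y * f t) t := fun t ht =>
    contDiffAt_const.mul (hf.smooth t ht)
  have hDk : D ≤ k / 20 := by linarith
  have hDl : D ≤ l / 100 := by linarith
  obtain ⟨κ, hκ⟩ : ∃ κ : ℝ, κ = Real.log F / l := ⟨_, rfl⟩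
  have hκl : κ * l = Real.log F := by rw [hκ]; field_simp
  have hFe : F = Real.exp (κ * l) := by rw [hκl, Real.exp_log hF0]
  have hab := abs_le.1 hlogy
  have hκ1 : 5 / 8 ≤ κ := by
    rw [hκ, le_div_iff₀ hl0, hlogF0]
    have := Real.log_two_gt_d9
    nlinarith
  have hκ0 : 0 < κ := by linarith
  have hlogF : Real.log F ≤ 2 * k := by
    have h2 : (k : ℝ) * Real.log 2 ≤ k * 1 := mul_le_mul_of_nonneg_left (by linarith [Real.log_two_lt_d9]) hkp.le
    linarith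
  have hκ2 : κ ≤ 2 * k / l := by rw [hκ]; exact div_le_div_of_nonneg_right hlogF hl0.le
  have hκ3 : κ ≤ 2 * (k : ℝ) ^ (1 / 3 : ℝ) := by
    refine hκ2.trans ?_
    rw [div_le_iff₀ hl0]
    have h1 : (k : ℝ) = (k : ℝ) ^ (1 / 3 : ℝ) * (k : ℝ) ^ (2 / 3 : ℝ) := by
      rw [← Real.rpow_add hkp]
      norm_num
    have h2 : 0 < (k : ℝ) ^ (1 / 3 : ℝ) := Real.rpow_pos_of_pos hkp _
    have h3 : (k : ℝ) ^ (2 / 3 : ℝ) ≤ l := by linarith
    calc 2 * (k : ℝ) = 2 * ((k : ℝ) ^ (1 / 3 : ℝ) * (k : ℝ) ^ (2 / 3 : ℝ)) := by rw [← h1]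
      _ ≤ 2 * ((k : ℝ) ^ (1 / 3 : ℝ) * l) := by gcongr
      _ = _ := by ring
  have hκl2 : κ ≤ l := by linarith
  have hX0 : X0 ≤ x := by
    have h1 : Real.log (X0 + 1) ≤ l := by linarith
    have h2 : ((X0 : ℝ) + 1) ≤ x := by
      rw [hxe]
      rw [← Real.exp_log (by positivity : (0 : ℝ) < X0 + 1)]
      exact Real.exp_le_exp.2 h1
    have h3 : ((X0 + 1 : ℕ) : ℝ) ≤ x := by push_cast; exact h2
    have h4 : X0 + 1 ≤ x := by exact_mod_cast h3
    omega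
  have hkx : (k : ℝ) ^ a * x ≤ Real.exp ((1 + δ) * l) := by
    rw [hxe]
    calc (k : ℝ) ^ a * Real.exp l ≤ Real.exp (δ * l) * Real.exp l := mul_le_mul_of_nonneg_right hG2 (Real.exp_pos _).le
      _ = _ := by rw [← Real.exp_add]; congr 1; ring
  have hkx2 : (k : ℝ) ^ a / x ≤ Real.exp (-((1 - δ) * l)) := by
    rw [hxe, div_le_iff₀ (Real.exp_pos _), ← Real.exp_add]
    refine hG2.trans (le_of_eq ?_)
    congr 1
    ring
  have key := hL x h κ (fun t => y * f t) hX0 (by linarith) (by rw [← hl]; exact hκl2) hgs (by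
    intro j hj1 hj2 t ht
    have hjk : j ≤ k := by
      rw [Real.rpow_one] at E2
      have : (j : ℝ) ≤ k := by linarith
      exact_mod_cast this
    rw [← hl]
    refine (hgu j hj1 hjk t ht).trans ?_
    have h3 : ((k : ℝ) ^ a / x) ^ j ≤ Real.exp (-((1 - δ) * l) * j) := by
      refine (pow_le_pow_left₀ (by positivity) hkx2 j).trans (le_of_eq ?_)
      rw [← Real.exp_nat_mul]
      congr 1
      ring
    refine (mul_le_mul_of_nonneg_left h3 hF0.le).trans (le_of_eq ?_)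
    rw [hFe, ← Real.exp_add]
    congr 1
    ring) (by
    intro j hj1 hj2 t ht
    rw [← hl]
    have hj3 : (j : ℝ) ≤ (1 + ζ) * (k * Real.log 2 / l) + 300 / ζ := by
      refine hj2.trans ?_
      have h1 : κ ≤ k * Real.log 2 / l + 1 := by
        rw [hκ, div_le_iff₀ hl0, add_mul, div_mul_cancel₀ _ hl0.ne', one_mul, hlogF0]
        linarith
      have h2 : (1 + ζ) * κ ≤ (1 + ζ) * (k * Real.log 2 / l + 1) := mul_le_mul_of_nonneg_left h1 (by linarith)
      have h3 : 250 / ζ + 2 ≤ 300 / ζ := by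
        have h4 : 300 / ζ = 250 / ζ + 50 / ζ := by ring
        have h5 : 50 ≤ 50 / ζ := by
          rw [le_div_iff₀ hζ]
          linarith
        rw [h4]
        linarith
      have h6 : (1 + ζ) * (k * Real.log 2 / l + 1) = (1 + ζ) * (k * Real.log 2 / l) + (1 + ζ) := by ring
      linarith
    refine le_trans ?_ (hgl j hj1 hj3 t ht)
    rw [le_div_iff₀ (by positivity)]
    have h3 : ((k : ℝ) ^ a * x) ^ j ≤ Real.exp ((1 + δ) * l * j) := by
      refine (pow_le_pow_left₀ (by positivity) hkx j).trans (le_of_eq ?_)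
      rw [← Real.exp_nat_mul]
      congr 1
      ring
    refine (mul_le_mul_of_nonneg_left h3 (Real.exp_pos _).le).trans (le_of_eq ?_)
    rw [← Real.exp_add, hFe]
    congr 1
    ring)
  rw [← hl] at key
  refine key.trans ?_
  -- the numbers
  have hh0 : (0 : ℝ) ≤ h := Nat.cast_nonneg _
  have hk3 : (k : ℝ) ^ (3 * σ - 2) ≤ 4 * (l / κ ^ 2) := by
    have hkσ0 : 0 < (k : ℝ) ^ σ := Real.rpow_pos_of_pos hkp _
    have h1 : ((k : ℝ) ^ σ) ^ 3 ≤ l ^ 3 := pow_le_pow_left₀ hkσ0.le hσx 3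
    have h2 : κ ^ 2 ≤ (2 * k / l) ^ 2 := pow_le_pow_left₀ hκ0.le hκ2 2
    have h3 : (k : ℝ) ^ (3 * σ - 2) = ((k : ℝ) ^ σ) ^ 3 / k ^ 2 := by
      rw [Real.rpow_sub hkp, ← Real.rpow_natCast ((k : ℝ) ^ σ) 3, ← Real.rpow_mul hkp.le, ← Real.rpow_natCast (k : ℝ) 2]
      congr 2
      push_cast
      ring
    rw [h3, mul_div_assoc', div_le_div_iff₀ (by positivity) (by positivity)]
    calc ((k : ℝ) ^ σ) ^ 3 * κ ^ 2 ≤ l ^ 3 * (2 * k / l) ^ 2 := mul_le_mul h1 h2 (by positivity) (by positivity)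
      _ = 4 * l * k ^ 2 := by
          field_simp
          ring
  have hlog28 := log28
  have hlog12 : Real.log 12 ≤ 4 := (Real.log_le_log (by norm_num) (by norm_num)).trans log28
  have hlog4 : Real.log 4 ≤ 4 := (Real.log_le_log (by norm_num) (by norm_num)).trans log28
  have t1 : Real.exp (C - c * l / κ ^ 2) * (1 + l) ≤ Real.exp (-D) / 4 := by
    have h1 : 1 + l ≤ Real.exp (2 + Real.log k) := by
      rw [Real.exp_add, Real.exp_log hkp]
      have h2 : (2 : ℝ) ≤ Real.exp 2 := by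
        have := Real.add_one_le_exp (2 : ℝ)
        linarith
      nlinarith
    have h3 : Real.exp (-D) / 4 = Real.exp (-D - Real.log 4) := by
      rw [Real.exp_sub, Real.exp_log (by norm_num)]
    rw [h3]
    calc Real.exp (C - c * l / κ ^ 2) * (1 + l) ≤ Real.exp (C - c * l / κ ^ 2) * Real.exp (2 + Real.log k) :=
          mul_le_mul_of_nonneg_left h1 (Real.exp_pos _).le
      _ = Real.exp (C - c * l / κ ^ 2 + (2 + Real.log k)) := by rw [← Real.exp_add]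
      _ ≤ _ := by
          apply Real.exp_le_exp.2
          have h4 : c * l / κ ^ 2 = c * (l / κ ^ 2) := by ring
          have h5 : c / 4 * (k : ℝ) ^ (3 * σ - 2) ≤ c * (l / κ ^ 2) := by
            have := mul_le_mul_of_nonneg_left hk3 (by positivity : 0 ≤ c / 4)
            linarith
          have h6 : (C + 10) * (1 + Real.log k) = (C + 10) + C * Real.log k + 10 * Real.log k := by ring
          have h7 : 0 ≤ C * Real.log k := mul_nonneg hC hlogk
          rw [h4]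
          linarith
  have t2 : 7 / (x : ℝ) ≤ Real.exp (-D) / 4 := by
    rw [div_le_div_iff₀ hxR (by norm_num), hxe, ← Real.exp_add]
    calc (7 : ℝ) * 4 = 28 := by norm_num
      _ = Real.exp (Real.log 28) := by rw [Real.exp_log (by norm_num)]
      _ ≤ Real.exp (-D + l) := Real.exp_le_exp.2 (by linarith)
  have t3 : 3 * Real.exp (4 / 5 * l) ≤ h * (Real.exp (-D) / 4) := by
    have h1 : Real.exp l ≤ Real.exp (a * Real.log k) * h := by rw [← hxe, ← hke]; exact hxh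
    have h2 : Real.exp (l - a * Real.log k) ≤ h := by
      rw [Real.exp_sub, div_le_iff₀ (Real.exp_pos _), mul_comm]
      exact h1
    have h3 : 3 * Real.exp (4 / 5 * l) = Real.exp (Real.log 12 + 4 / 5 * l) / 4 := by
      rw [Real.exp_add, Real.exp_log (by norm_num)]
      ring
    rw [h3, mul_div_assoc']
    apply div_le_div_of_nonneg_right _ (by norm_num)
    calc Real.exp (Real.log 12 + 4 / 5 * l) ≤ Real.exp (l - a * Real.log k + -D) := by
          apply Real.exp_le_exp.2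
          push_cast at E6
          have h4 : (10 : ℝ) * (a + 10) * (1 + Real.log k) = 10 * a + 100 + 10 * (a * Real.log k) + 100 * Real.log k := by ring
          have h5 : (0 : ℝ) ≤ a := Nat.cast_nonneg _
          linarith
      _ = Real.exp (l - a * Real.log k) * Real.exp (-D) := Real.exp_add _ _
      _ ≤ _ := mul_le_mul_of_nonneg_right h2 (Real.exp_pos _).le
  have t4 : 0 < Real.exp (-D) := Real.exp_pos _
  calc h * (Real.exp (C - c * l / κ ^ 2) * (1 + l) + 7 / x) + 3 * Real.exp (4 / 5 * l)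
      ≤ h * (Real.exp (-D) / 4 + Real.exp (-D) / 4) + h * (Real.exp (-D) / 4) := by
        apply add_le_add _ t3
        exact mul_le_mul_of_nonneg_left (add_le_add t1 t2) hh0
    _ ≤ _ := by nlinarith

/-- the sums over the integer parts -/
theorem floor_big (ζ : ℝ) (hζ : 0 < ζ) (hζ1 : ζ ≤ 1) (a : ℕ) (σ ρ : ℝ) (hσ : 2 / 3 < σ) (hρ0 : 0 < ρ)
    (hρ1 : ρ < 3 * σ - 2) (hρ2 : ρ < σ) (hρ3 : ρ < 1) :
    ∃ k0 : ℕ, ∀ k : ℕ, k0 ≤ k → ∀ x h : ℕ,
    ∀ f : ℝ → ℝ, Reg ζ a k x h f → (x : ℝ) ≤ (k : ℝ) ^ a * h → (k : ℝ) ^ σ ≤ Real.log x → Real.log x ≤ k →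
    ∀ K : ℕ, (4 * K + 32 : ℝ) ≤ (k : ℝ) ^ ρ → ∀ α : ℝ, (1 : ℝ) ≤ 8 * (|α - round α| * 2 ^ K) →
    ‖∑ b ∈ Icc 1 h, e (α * ⌊f ((x + b : ℕ) : ℝ)⌋)‖ ≤ h / 2 ^ K := by
  obtain ⟨k0, h0⟩ := phase_big ζ hζ hζ1 a σ ρ hσ hρ0 hρ1 hρ2 hρ3
  refine ⟨k0, fun k hk x h f hf hxh hσx hxk K hK α hα => ?_⟩
  have hlog2 : 0 < Real.log 2 := Real.log_pos (by norm_num)
  have hlog21 : Real.log 2 ≤ 1 := by linarith [Real.log_two_lt_d9]
  obtain ⟨D, hD⟩ : ∃ D : ℝ, D = (4 * K + 32 : ℕ) * Real.log 2 := ⟨_, rfl⟩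
  have hK0 : (0 : ℝ) ≤ K := Nat.cast_nonneg _
  have hD0 : 0 ≤ D := by rw [hD]; positivity
  have hD1 : D ≤ (k : ℝ) ^ ρ := by
    refine le_trans ?_ hK
    rw [hD]
    push_cast
    nlinarith
  have hexp : Real.exp D = 2 ^ (4 * K + 32) := by
    rw [hD, ← Real.log_pow, Real.exp_log (by positivity)]
  have hexpn : Real.exp (-D) = 1 / 2 ^ (4 * K + 32) := by
    rw [Real.exp_neg, hexp, one_div]
  obtain ⟨Q, hQ⟩ : ∃ Q : ℕ, Q = 2 ^ (K + 6) := ⟨_, rfl⟩
  have hQ1 : 1 ≤ Q := by rw [hQ]; exact Nat.one_le_two_pow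
  have hQR : (Q : ℝ) = 2 ^ (K + 6) := by rw [hQ]; push_cast; ring
  obtain ⟨θ, hθ⟩ : ∃ θ : ℝ, θ = α - round α := ⟨_, rfl⟩
  have hθh : |θ| ≤ 1 / 2 := by
    rw [hθ]
    exact abs_sub_round α
  have hθ1 : |θ| ≤ 1 := by linarith
  rw [← hθ] at hα
  obtain ⟨E, hE⟩ : ∃ E : ℝ, E = h * Real.exp (-D) := ⟨_, rfl⟩
  have hE0 : 0 ≤ E := by rw [hE]; positivity
  have hQ3 : 128 * (Q : ℝ) ^ 3 + 8 ≤ 2 ^ (3 * K + 26) := by
    have e1 : (Q : ℝ) ^ 3 = 2 ^ (3 * K + 18) := by rw [hQR, ← pow_mul]; congr 1; ring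
    have e2 : (2 : ℝ) ^ (3 * K + 26) = 256 * 2 ^ (3 * K + 18) := by
      rw [show 3 * K + 26 = 8 + (3 * K + 18) by ring, pow_add]
      norm_num
    have e3 : (1 : ℝ) ≤ 2 ^ (3 * K + 18) := one_le_pow₀ (by norm_num)
    rw [e1, e2]
    linarith
  have hQB : 128 * (Q : ℝ) ^ 3 + 8 ≤ Real.exp D := by
    refine hQ3.trans ?_
    rw [hexp]
    exact pow_le_pow_right₀ (by norm_num) (by omega)
  have hsmall : ∀ u : ℝ, 1 / (8 * 2 ^ K) ≤ |u| → Real.exp (-D) ≤ |u| := by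
    intro u hu
    refine le_trans ?_ hu
    rw [hexpn]
    apply one_div_le_one_div_of_le (by positivity)
    rw [show (8 : ℝ) = 2 ^ 3 by norm_num, ← pow_add]
    exact pow_le_pow_right₀ (by norm_num) (by omega)
  have key := Pool.Agent.N193.PS.floor_sum (Icc 1 h) (fun b => f ((x + b : ℕ) : ℝ)) Q hQ1 θ hθ1 E hE0 (by
    intro m hm
    have hmR : |(m : ℝ)| ≤ 128 * (Q : ℝ) ^ 3 := by
      have : ((|m| : ℤ) : ℝ) < ((128 * Q ^ 3 : ℕ) : ℝ) := by exact_mod_cast hm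
      rw [Int.cast_abs] at this
      push_cast at this
      exact this.le
    rw [hE]
    refine h0 k hk x h f hf hxh hσx hxk (θ + m) D hD0 hD1 ?_ ?_
    · apply hsmall
      rcases eq_or_ne m 0 with rfl | hm0
      · rw [Int.cast_zero, add_zero, div_le_iff₀ (by positivity)]
        linarith
      · have h1 : (1 : ℝ) ≤ |(m : ℝ)| := by
          have : (1 : ℤ) ≤ |m| := Int.one_le_abs hm0
          exact_mod_cast this
        have h2 : 1 / 2 ≤ |θ + m| := by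
          have h3 := abs_sub_abs_le_abs_sub (m : ℝ) (-θ)
          rw [sub_neg_eq_add, abs_neg, add_comm (m : ℝ)] at h3
          linarith
        refine le_trans ?_ h2
        apply one_div_le_one_div_of_le (by norm_num)
        have : (1 : ℝ) ≤ 2 ^ K := one_le_pow₀ (by norm_num)
        linarith
    · refine le_trans ?_ hQB
      exact (abs_add_le _ _).trans (by linarith)) (by
    intro m hm0 hm
    have hmR : |(m : ℝ)| ≤ Q := by
      have : ((|m| : ℤ) : ℝ) < (Q : ℝ) := by exact_mod_cast hm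
      rw [Int.cast_abs] at this
      exact this.le
    have hm1 : (1 : ℝ) ≤ |(m : ℝ)| := by
      have : (1 : ℤ) ≤ |m| := Int.one_le_abs hm0
      exact_mod_cast this
    rw [hE]
    refine h0 k hk x h f hf hxh hσx hxk m D hD0 hD1 ?_ ?_
    · apply hsmall
      refine le_trans ?_ hm1
      rw [div_le_one (by positivity)]
      have : (1 : ℝ) ≤ 2 ^ K := one_le_pow₀ (by norm_num)
      linarith
    · refine le_trans ?_ hQB
      have e1 : (Q : ℝ) ≤ (Q : ℝ) ^ 3 := by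
        have : (1 : ℝ) ≤ Q := by exact_mod_cast hQ1
        exact le_self_pow₀ this (by norm_num)
      have e2 : (0 : ℝ) ≤ (Q : ℝ) ^ 3 := by positivity
      linarith)
  have hsum : ∑ b ∈ Icc 1 h, e (α * ⌊f ((x + b : ℕ) : ℝ)⌋) = ∑ b ∈ Icc 1 h, e (θ * ⌊f ((x + b : ℕ) : ℝ)⌋) := by
    refine sum_congr rfl fun b _ => ?_
    have e1 : α * (⌊f ((x + b : ℕ) : ℝ)⌋ : ℝ) = θ * ⌊f ((x + b : ℕ) : ℝ)⌋ + ((round α * ⌊f ((x + b : ℕ) : ℝ)⌋ : ℤ) : ℝ) := by
      rw [hθ]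
      push_cast
      ring
    rw [e1, e_add, Pool.Agent.N193.PS.e_int', mul_one]
  rw [hsum]
  refine key.trans ?_
  rw [Nat.card_Icc, Nat.add_sub_cancel]
  have hh0 : (0 : ℝ) ≤ h := Nat.cast_nonneg _
  have t1 : (128 * (Q : ℝ) ^ 3 + 8) * E ≤ h / 2 ^ K / 2 := by
    refine (mul_le_mul_of_nonneg_right hQ3 hE0).trans ?_
    rw [hE, hexpn]
    have e1 : (2 : ℝ) ^ (4 * K + 32) = 2 ^ (3 * K + 26) * (2 ^ K * 64) := by
      rw [show 4 * K + 32 = (3 * K + 26) + (K + 6) by ring, pow_add, pow_add _ K 6]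
      norm_num
    rw [e1, mul_one_div, mul_div_assoc', mul_div_mul_left _ _ (by positivity), div_div]
    apply div_le_div_of_nonneg_left hh0 (by positivity)
    have : (0 : ℝ) < 2 ^ K := by positivity
    linarith
  have t2 : 10 * ((h : ℝ) / Q) ≤ h / 2 ^ K / 2 := by
    rw [hQR, pow_add, div_div, mul_div_assoc', div_le_div_iff₀ (by positivity) (by positivity)]
    have : (0 : ℝ) ≤ h * 2 ^ K := by positivity
    nlinarith
  linarith

end Pool.Agent.U710.LE
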