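import Pool.Agent.U710.LE.R
import Pool.Agent.U710.LE.P
import Pool.Agent.N469.TL.Pair1
import Pool.Agent.N625.DY.I

set_option autoImplicit false

/-!
Prime pairs whose difference is an integer near a value; the pairs may be larger than the values by powers of logarithms.
-/

namespace Pool.Agent.U710.LE

open Finset Filter Topology
open Pool.Agent.W93.TD (HLs)

open Classical in
/-- prime pairs, one shift -/
theorem lc_pair1 (ζ : ℝ) (hζ : 0 < ζ) (hζ1 : ζ ≤ 1) (a : ℕ) (σ : ℝ) (hσ : 2 / 3 < σ) (κ : ℤ) (hκ : κ ≠ 0)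
    (B H U : ℕ) (ε : ℝ) (hε : 0 < ε) :
    ∃ m₁ : ℕ, ∀ m : ℕ, m₁ ≤ m → ∀ p, LC ζ σ a m p → ∀ M : ℕ, 2 ^ m ≤ 8 * M → M ≤ 2 ^ m * m ^ H →
      ∀ c₀ : ℤ, |c₀| ≤ B * M →
      ∑ v ∈ range (2 ^ m), (if (0 < c₀ + κ * (v : ℕ) →
          HLs ε (U + 1) M (fun _ : Fin 1 => (c₀ + κ * (v : ℕ)).toNat)) then 0 else p v) ≤ 1 / (m : ℝ) ^ (U + 1) := by
  obtain ⟨C₀, m₀, htl⟩ := LC_tlaw ζ hζ hζ1 a σ hσ κ hκ (H + 1) (2 * (2 * (U + 1) + 5 + 1 + 2) + 6)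
  obtain ⟨G, hG⟩ : ∃ G, G = κ.natAbs := ⟨_, rfl⟩
  obtain ⟨e, he⟩ : ∃ e, e = B + 8 * G + 5 := ⟨_, rfl⟩
  obtain ⟨K₀, h3⟩ := Pool.Agent.Y885.tl_tuples 1 2 3 C₀ (2 ^ e) (U + 1) le_rfl le_rfl (by norm_num) ε hε
  refine ⟨m₀ + K₀ + 2 ^ e + 1, fun m hm p hp M hM1 hM2 c₀ hc₀ => ?_⟩
  obtain ⟨hma, hmb, hmc, hmd⟩ : m₀ ≤ m ∧ K₀ ≤ m ∧ 2 ^ e ≤ m ∧ 1 ≤ m := by
    generalize 2 ^ e = w at *
    refine ⟨?_, ?_, ?_, ?_⟩ <;> omega
  have hm0 : (0 : ℝ) < m := by exact_mod_cast hmd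
  have hMpos : 0 < M := by
    have : 0 < 2 ^ m := by positivity
    omega
  obtain ⟨K, hK⟩ : ∃ K, K = Nat.log 2 M + e := ⟨_, rfl⟩
  have hl1 : 2 ^ Nat.log 2 M ≤ M := Nat.pow_log_le_self 2 (by omega)
  have hl2 : M < 2 ^ (Nat.log 2 M + 1) := Nat.lt_pow_succ_log_self (by norm_num) M
  have hKM : 2 ^ K ≤ 2 ^ e * M := by
    rw [hK, pow_add, mul_comm]
    exact Nat.mul_le_mul_left _ hl1
  have hmK : m ≤ K := by
    have h1 : 2 ^ m < 2 ^ (Nat.log 2 M + 4) := by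
      calc 2 ^ m ≤ 8 * M := hM1
        _ < 8 * 2 ^ (Nat.log 2 M + 1) := by omega
        _ = 2 ^ (Nat.log 2 M + 4) := by rw [pow_add _ _ 1, pow_add _ _ 4]; ring
    have h2 := (Nat.pow_lt_pow_iff_right (by norm_num : 1 < 2)).1 h1
    omega
  obtain ⟨e', he'⟩ : ∃ e', K = m + e' := ⟨K - m, by omega⟩
  have hee : 2 ^ e' ≤ m ^ (H + 1) := by
    have h1 : 2 ^ m * 2 ^ e' ≤ 2 ^ m * m ^ (H + 1) := by
      rw [← pow_add, ← he']
      calc 2 ^ K ≤ 2 ^ e * M := hKM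
        _ ≤ m * (2 ^ m * m ^ H) := Nat.mul_le_mul hmc hM2
        _ = 2 ^ m * m ^ (H + 1) := by rw [pow_succ]; ring
    exact Nat.le_of_mul_le_mul_left h1 (by positivity)
  -- sizes
  have h2e : ((B + 8 * G + 5 : ℕ) : ℤ) ≤ (2 : ℤ) ^ (e - 1) := by
    have h1 : e ≤ 2 ^ (e - 1) := by
      have : e - 1 < 2 ^ (e - 1) := Nat.lt_two_pow_self
      omega
    rw [← he]
    exact_mod_cast h1
  have hbig : ((B + 8 * G + 5 : ℕ) : ℤ) * M ≤ (2 : ℤ) ^ K := by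
    have h1 : (M : ℤ) ≤ (2 : ℤ) ^ (Nat.log 2 M + 1) := by exact_mod_cast hl2.le
    calc ((B + 8 * G + 5 : ℕ) : ℤ) * M ≤ (2 : ℤ) ^ (e - 1) * (2 : ℤ) ^ (Nat.log 2 M + 1) :=
          mul_le_mul h2e h1 (Nat.cast_nonneg _) (by positivity)
      _ = (2 : ℤ) ^ K := by
          rw [← pow_add]
          congr 1
          omega
  have hsz : ∀ v ∈ range (2 ^ m), |((1 : ℕ) : ℤ) * (c₀ + κ * (v : ℕ))| ≤ ((B + 8 * G : ℕ) : ℤ) * M := by
    intro v hv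
    rw [mem_range] at hv
    rw [Nat.cast_one, one_mul]
    have h8 : ((2 : ℤ) ^ m) ≤ 8 * M := by exact_mod_cast hM1
    have hv' : (v : ℤ) ≤ 8 * M := by
      have : (v : ℤ) < (2 : ℤ) ^ m := by exact_mod_cast hv
      linarith
    calc |c₀ + κ * (v : ℕ)| ≤ |c₀| + |κ * (v : ℕ)| := abs_add_le _ _
      _ ≤ B * M + G * (8 * M) := by
          apply add_le_add hc₀
          rw [abs_mul, Int.abs_eq_natAbs κ, Nat.abs_cast, ← hG]
          exact mul_le_mul_of_nonneg_left hv' (Nat.cast_nonneg _)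
      _ = ((B + 8 * G : ℕ) : ℤ) * M := by push_cast; ring
  obtain ⟨Q, hQ⟩ : ∃ Q : ℕ → Prop, Q = fun v => (0 < c₀ + κ * (v : ℕ) →
          HLs ε (U + 1) M (fun _ : Fin 1 => (c₀ + κ * (v : ℕ)).toNat)) := ⟨_, rfl⟩
  have l1 := htl m hma p hp e' 1 hee le_rfl (Nat.one_le_pow _ _ hmd) c₀ K he'
  have hMz : (1 : ℤ) ≤ M := by exact_mod_cast hMpos
  have key := h3 K (hmb.trans hmK) ℕ inferInstance (fun _ => range (2 ^ m)) (fun _ => p)
      (fun _ v => ((1 : ℕ) : ℤ) * (c₀ + κ * (v : ℕ))) (fun _ => l1) (fun _ => LC_sum ζ σ a m p hp) M hKM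
      (by
        have : (M : ℤ) ≤ (2 : ℤ) ^ K := by
          push_cast at hbig
          have h0 : (0 : ℤ) ≤ (B + 8 * G : ℤ) * M := by positivity
          linarith
        exact_mod_cast this)
      (fun _ v hv => by
        have b1 := hsz v hv
        rw [abs_le] at b1
        push_cast at b1 hbig ⊢
        constructor
        · linarith [b1.1]
        · linarith [b1.2])
      (fun ω => ¬ Q (ω 0)) (Classical.decPred _) (fun ω _ hω => by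
        rw [hQ] at hω
        push Not at hω
        refine ⟨fun i => ?_, fun hcon => hω.2 ?_⟩
        · have : i = 0 := Subsingleton.elim _ _
          rw [this, Nat.cast_one, one_mul]
          exact hω.1.le
        · have e0 : (fun i : Fin 1 => (((1 : ℕ) : ℤ) * (c₀ + κ * (ω i : ℕ))).toNat) = (fun _ : Fin 1 => (c₀ + κ * (ω 0 : ℕ)).toNat) := by
            funext i
            have : i = 0 := Subsingleton.elim _ _
            rw [this, Nat.cast_one, one_mul]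
          rw [← e0]
          exact hcon)
  have hQ' : ∑ v ∈ range (2 ^ m), (if (0 < c₀ + κ * (v : ℕ) →
          HLs ε (U + 1) M (fun _ : Fin 1 => (c₀ + κ * (v : ℕ)).toNat)) then 0 else p v) =
      ∑ v ∈ range (2 ^ m), (if Q v then 0 else p v) := by
    refine sum_congr rfl fun v _ => ?_
    have hiff : Q v ↔ (0 < c₀ + κ * (v : ℕ) →
          HLs ε (U + 1) M (fun _ : Fin 1 => (c₀ + κ * (v : ℕ)).toNat)) := by rw [hQ]
    by_cases hq : Q v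
    · rw [if_pos hq, if_pos (hiff.1 hq)]
    · rw [if_neg hq, if_neg (fun h => hq (hiff.2 h))]
  rw [hQ']
  refine le_trans (le_of_eq ?_) (key.trans ?_)
  · rw [← Pool.Agent.N469.TL.pi_one (range (2 ^ m)) (fun v : ℕ => if Q v then 0 else p v)]
    apply sum_congr rfl
    intro ω _
    rw [Fin.prod_univ_one]
    by_cases hq : Q (ω 0)
    · rw [if_pos hq, if_neg (not_not.2 hq)]
    · rw [if_neg hq, if_pos hq]
  · apply one_div_le_one_div_of_le (by positivity)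
    apply pow_le_pow_left₀ hm0.le
    exact_mod_cast hmK

open Classical in
/-- prime pairs, all the shifts near a value -/
theorem lc_pair (ζ : ℝ) (hζ : 0 < ζ) (hζ1 : ζ ≤ 1) (a : ℕ) (σ : ℝ) (hσ : 2 / 3 < σ) (κ : ℤ) (hκ : κ ≠ 0)
    (B H W U : ℕ) (ε : ℝ) (hε : 0 < ε) :
    ∃ m₁ : ℕ, ∀ m : ℕ, m₁ ≤ m → ∀ p, LC ζ σ a m p → ∀ M : ℕ, 2 ^ m ≤ 8 * M → M ≤ 2 ^ m * m ^ H →
      ∀ c₀ : ℤ, |c₀| ≤ B * M →
      ∑ v ∈ range (2 ^ m), (if (∀ y : ℤ, |y - (c₀ + κ * (v : ℕ))| ≤ (m : ℤ) ^ W → 0 < y →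
          HLs ε (U + W + 1) M (fun _ : Fin 1 => y.toNat)) then 0 else p v) ≤ 1 / (m : ℝ) ^ U := by
  obtain ⟨m₁, h1⟩ := lc_pair1 ζ hζ hζ1 a σ hσ κ hκ (B + 8) H (U + W) ε hε
  obtain ⟨k3, h3⟩ := Pool.Agent.N625.DY.pow_ev 2 W le_rfl
  refine ⟨m₁ + k3 + 3, fun m hm p hp M hM1 hM2 c₀ hc₀ => ?_⟩
  apply Pool.Agent.N625.DY.cls_near (clsV ζ hζ hζ1 a σ hσ κ hκ).toCls m U W (by omega) p hp c₀
    (fun y => 0 < y → HLs ε (U + W + 1) M (fun _ : Fin 1 => y.toNat))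
  intro t ht
  have hW : (m : ℤ) ^ W ≤ (2 : ℤ) ^ m := by exact_mod_cast h3 m (by omega)
  have h8 : ((2 : ℤ) ^ m) ≤ 8 * M := by exact_mod_cast hM1
  have hct : |c₀ + t| ≤ ((B + 8 : ℕ) : ℤ) * M := by
    have := abs_add_le c₀ t
    push_cast
    linarith
  refine le_trans (le_of_eq (sum_congr rfl fun v _ => ?_)) (h1 m (by omega) p hp M hM1 hM2 (c₀ + t) hct)
  by_cases hq : (0 < c₀ + t + κ * (v : ℕ) →
          HLs ε (U + W + 1) M (fun _ : Fin 1 => (c₀ + t + κ * (v : ℕ)).toNat))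
  · rw [if_pos hq, if_pos hq]
  · rw [if_neg hq, if_neg hq]

end Pool.Agent.U710.LE
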