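import Pool.Agent.U710.LE.O

set_option autoImplicit false

/-!
# The blocks for the functions `exp (α (log t) ^ γ + β)`, with any `σ < 1 / γ`
-/

namespace Pool.Agent.U710.LE

open Finset Filter Metric

/-- The blocks `(y - h, y]` with `y / (log y) ^ A ≤ h ≤ y / log y`. -/
theorem ef_blk' (α β γ : ℝ) (hα : 0 < α) (hγ1 : 1 < γ) (hγ2 : γ < 3 / 2) (σ : ℝ) (hσ1 : 2 / 3 < σ) (hσ2 : σ < 1 / γ)
    (A : ℕ) : ∃ (ζ C : ℝ) (y0 : ℕ), 0 < ζ ∧ ζ ≤ 1 ∧ 0 < C ∧ ∀ y h : ℕ, y0 ≤ y → (y : ℝ) / Real.log y ^ A ≤ h →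
      (h : ℝ) ≤ y / Real.log y →
      1 ≤ h ∧ h ≤ y ∧ Real.log y ≤ kf α β γ y ∧ Blk ζ σ (A + 4) (kf α β γ y) (y - h) h (ef α β γ) ∧
        (∀ n : ℕ, y - h ≤ n → n ≤ y → (2 : ℝ) ^ kf α β γ y ≤ C * ef α β γ n ∧ ef α β γ n < 2 ^ kf α β γ y) := by
  obtain ⟨δ, hδ⟩ : ∃ δ : ℝ, δ = (γ - 1) / 6 := ⟨_, rfl⟩
  have hδ0 : 0 < δ := by rw [hδ]; linarith
  have hδ1 : δ ≤ 1 := by rw [hδ]; linarith
  obtain ⟨ρ, hρ0, hρ⟩ := ef_lower α β γ δ hα hγ1 hδ0 hδ1
  have hγ0 : 0 < γ := by linarith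
  have hσ0 : 0 < σ := by linarith
  have hγσ : γ < 1 / σ := by
    rw [lt_div_iff₀ hσ0]
    rw [lt_div_iff₀ hγ0] at hσ2
    linarith
  obtain ⟨γ', hγ'⟩ : ∃ γ' : ℝ, γ' = (γ + 1 / σ) / 2 := ⟨_, rfl⟩
  have hγγ' : γ < γ' := by rw [hγ']; linarith
  have hγ'σ : γ' * σ < 1 := by
    have h1 : γ' < 1 / σ := by rw [hγ']; linarith
    rwa [lt_div_iff₀ hσ0] at h1
  obtain ⟨y0, hy0⟩ := eventually_atTop.1
    ((Real.tendsto_log_atTop.comp (tendsto_natCast_atTop_atTop (R := ℝ))).eventually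
      (ef_ev α β γ δ ρ σ γ' hα hγ1 hδ0 hρ0 (by linarith) hγγ' hγ'σ (Real.exp (8 * α + 1))))
  refine ⟨δ, Real.exp (8 * α + 1), y0 + 2, hδ0, hδ1, Real.exp_pos _, ?_⟩
  intro y h hy hh1 hh2
  obtain ⟨a1, a2, a3, a4, a5, a6, a7, a8, a9, a10⟩ := hy0 y (by omega)
  simp only [Function.comp_apply] at a1 a2 a3 a4 a5 a6 a7 a8 a9 a10
  obtain ⟨L, hL⟩ : ∃ L : ℝ, L = Real.log y := ⟨_, rfl⟩
  rw [← hL] at a1 a2 a3 a4 a5 a6 a7 a8 a9 a10 hh1 hh2 ⊢
  rw [Real.rpow_one] at a3 a4 a8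
  have hL0 : 0 < L := by linarith
  have hyR : (0 : ℝ) < y := by exact_mod_cast (by omega : 0 < y)
  have hh3 : 1 ≤ h := by
    have h3 : 0 < (y : ℝ) / L ^ A := by positivity
    have : (0 : ℝ) < h := by linarith
    exact_mod_cast this
  have hhy : h ≤ y := by
    have h3 : (y : ℝ) / L ≤ y := div_le_self hyR.le (by linarith)
    have : (h : ℝ) ≤ y := by linarith
    exact_mod_cast this
  obtain ⟨k, hk⟩ : ∃ k : ℕ, k = kf α β γ y := ⟨_, rfl⟩
  rw [← hk]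
  obtain ⟨x, hx⟩ : ∃ x : ℕ, x = y - h := ⟨_, rfl⟩
  have hxh : x + h = y := by omega
  obtain ⟨hk2, hk2', hLk, hx2, hLx, hyx, hkσ⟩ := ef_num α β γ σ γ' L k x h y hα hγ1 hγ2.le hσ0 hL hk hxh hh3 hh2 a1 a4
    a5 a6 a7 a8
  have hxpos : (0 : ℝ) < x := by exact_mod_cast (by omega : 0 < x)
  have hkR : (1 : ℝ) ≤ k := by linarith
  have h1L : 1 / L ≤ 1 / 10 := one_div_le_one_div_of_le (by norm_num) a1
  have h2L : 2 / L = 2 * (1 / L) := by ring
  have h1L0 : 0 < 1 / L := by positivity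
  have h2k : (2 : ℝ) ^ k = Real.exp (k * Real.log 2) := by
    rw [← Real.log_pow, Real.exp_log (by positivity)]
  -- the values of the function
  have hval : ∀ t : ℝ, (x : ℝ) ≤ t → t ≤ y → 2 ^ k ≤ Real.exp (8 * α + 1) * ef α β γ t ∧ ef α β γ t < 2 ^ k := by
    intro t ht1 ht2
    have ht0 : 0 < t := by linarith
    have p2 : L - 2 / L ≤ Real.log t := hLx.trans (Real.log_le_log hxpos ht1)
    have p3 : Real.log t ≤ L := by rw [hL]; exact Real.log_le_log ht0 ht2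
    have p1 : 0 ≤ Real.log t := by linarith
    rw [h2k]
    unfold ef
    constructor
    · rw [← Real.exp_add]
      apply Real.exp_le_exp.2
      have h2 : (L - 2 / L) ^ γ ≤ Real.log t ^ γ := Real.rpow_le_rpow (by linarith) p2 hγ0.le
      have h3 : L ^ γ - 8 ≤ (L - 2 / L) ^ γ := by
        have h4 := pow_near_low (L / 2) γ (by linarith) hγ0.le (by linarith)
        have h5 : L - 2 / L = 2 * (L / 2 - 1 / (L / 2) / 2) := by field_simp
        have h6 : (L / 2 - 1 / (L / 2)) ≤ (L / 2 - 1 / (L / 2) / 2) := by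
          have : 0 < 1 / (L / 2) := by positivity
          linarith
        have h7 : 0 ≤ L / 2 - 1 / (L / 2) := by
          have : 1 / (L / 2) = 2 * (1 / L) := by field_simp
          rw [this]
          linarith
        have h8 : (2 * (L / 2 - 1 / (L / 2))) ^ γ ≤ (L - 2 / L) ^ γ := by
          rw [h5]
          exact Real.rpow_le_rpow (by positivity) (mul_le_mul_of_nonneg_left h6 (by norm_num)) hγ0.le
        refine le_trans ?_ h8
        rw [Real.mul_rpow (by norm_num) h7]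
        have h9 : (2 : ℝ) ^ γ ≤ 4 := by
          calc (2 : ℝ) ^ γ ≤ (2 : ℝ) ^ (2 : ℝ) := Real.rpow_le_rpow_of_exponent_le (by norm_num) (by linarith)
            _ = 4 := by rw [show (2 : ℝ) = ((2 : ℕ) : ℝ) by norm_num, Real.rpow_natCast]; norm_num
        have h10 : (0 : ℝ) < (2 : ℝ) ^ γ := Real.rpow_pos_of_pos (by norm_num) _
        have h11 : L ^ γ = (2 : ℝ) ^ γ * (L / 2) ^ γ := by
          rw [← Real.mul_rpow (by norm_num) (by positivity)]
          congr 1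
          ring
        have h12 := mul_le_mul_of_nonneg_left h4 h10.le
        rw [h11]
        have h13 : (2 : ℝ) ^ γ * ((L / 2) ^ γ - 2) = (2 : ℝ) ^ γ * (L / 2) ^ γ - 2 * (2 : ℝ) ^ γ := by ring
        linarith
      have h4 := mul_le_mul_of_nonneg_left (h3.trans h2) hα.le
      linarith
    · apply Real.exp_lt_exp.2
      have h2 : Real.log t ^ γ ≤ L ^ γ := Real.rpow_le_rpow p1 p3 hγ0.le
      have h3 := mul_le_mul_of_nonneg_left h2 hα.le
      linarith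
  have hyxR : (y : ℝ) = x + h := by rw [← hxh]; push_cast; ring
  have habs := le_abs_self β
  have hreg := ef_reg α β γ δ ρ (Real.exp (8 * α + 1)) hα hγ1 hγ2.le hδ hρ hρ0 L k x h a1 hx2 (by rw [hxh, hL])
    (by linarith) hyx (by linarith) hk2.le (Real.one_le_exp (by positivity))
    (fun t ht => (hval t ht.1 (by rw [hyxR]; exact ht.2)).1) hLk a2 (by
      calc 48 * (α * γ) * L ^ (γ - 1) ≤ 48 * (α * γ) * (δ ^ 2 * ρ / (2 * (48 * (α * γ))) * L) :=
            mul_le_mul_of_nonneg_left a3 (by positivity)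
        _ = δ ^ 2 * ρ * (L / 2) := by field_simp) a9 a10
  have hk1 : 1 ≤ k := by exact_mod_cast hkR
  refine ⟨hh3, hhy, hLk, ?_, fun n hn1 hn2 => hval n (by rw [← hx] at hn1; exact_mod_cast hn1) (by exact_mod_cast hn2)⟩
  rw [← hx]
  refine ⟨hh3, ?_, hkσ, hreg.mono (by omega) hk1 (by omega), fun b hb => ?_⟩
  · have h1 : (y : ℝ) ≤ L ^ A * h := by
      rw [div_le_iff₀ (by positivity)] at hh1
      linarith
    have h2 : (x : ℝ) ≤ y := by rw [hyxR]; linarith [(Nat.cast_nonneg h : (0 : ℝ) ≤ h)]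
    have h3 : L ^ A ≤ (k : ℝ) ^ (A + 4) := by
      calc L ^ A ≤ (k : ℝ) ^ A := pow_le_pow_left₀ hL0.le hLk A
        _ ≤ _ := pow_le_pow_right₀ hkR (by omega)
    have h4 := mul_le_mul_of_nonneg_right h3 (Nat.cast_nonneg (α := ℝ) h)
    linarith
  · rw [mem_Icc] at hb
    exact ⟨(ef_pos _ _ _ _).le, (hval _ (by exact_mod_cast (by omega : x ≤ x + b))
      (by exact_mod_cast (by omega : x + b ≤ y))).2⟩


end Pool.Agent.U710.LE
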