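import Pool.Agent.N193.PS.Dec2
import Pool.Agent.U710.LE.X
import Pool.Agent.U710.LE.H
import Pool.Agent.U710.LE.O2

set_option autoImplicit false

/-!
# The decay of the characteristic functions, and almost all the values
-/

namespace Pool.Agent.U710.LE

open Finset Filter
open Pool.Agent.H469R2.NK (e norm_e e_add)
open Pool.Agent.H807R2.Dav (ee norm_ee ee_add)
open Pool.Agent.R459.Eq (Decays)

/-- the decay of the characteristic function of the values in a block -/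
theorem blk_decays (ζ : ℝ) (hζ : 0 < ζ) (hζ1 : ζ ≤ 1) (a : ℕ) (σ ρ : ℝ) (hσ : 2 / 3 < σ) (hρ0 : 0 < ρ)
    (hρ1 : ρ < 3 * σ - 2) (hρ2 : ρ < σ) (hρ3 : ρ < 1) :
    ∃ k0 : ℕ, ∀ k : ℕ, k0 ≤ k → ∀ (x h : ℕ) (f : ℝ → ℝ), Blk ζ σ a k x h f → Real.log x ≤ k →
    ∀ K : ℕ, (4 * K + 32 : ℝ) ≤ (k : ℝ) ^ ρ → ∀ c₀ κ : ℤ,
      Decays 2 1 1 K (1 / 2) κ (Icc 1 h) (fun _ => 1 / (h : ℝ)) (fun b => c₀ + κ * (vl f x b : ℕ)) := by
  obtain ⟨k0, hk0⟩ := floor_big ζ hζ hζ1 a σ ρ hσ hρ0 hρ1 hρ2 hρ3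
  refine ⟨k0, fun k hk x h f hB hxk K hK c₀ κ => ?_⟩
  obtain ⟨hh, hxh, hσx, hf, hb01⟩ := hB
  have hh0 : (0 : ℝ) < h := by exact_mod_cast hh
  refine ⟨fun _ _ => by positivity, ?_, fun θ N hfar hAN => ?_⟩
  · rw [sum_const, Nat.card_Icc, Nat.add_sub_cancel, nsmul_eq_mul, mul_one_div, div_self hh0.ne']
  obtain ⟨α, hα⟩ : ∃ α : ℝ, α = κ * θ := ⟨_, rfl⟩
  rw [← hα] at hfar
  rw [one_mul] at hfar hAN
  obtain ⟨hMk, hdist⟩ := Pool.Agent.N193.PS.far_dist K (N + 1) (by omega) α hfar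
  have h1 : (1 : ℝ) ≤ 8 * (|α - round α| * 2 ^ K) := le_trans (one_le_pow₀ (by norm_num)) hdist
  have hnorm : ‖∑ b ∈ Icc 1 h, ((1 / (h : ℝ) : ℝ) : ℂ) * ee (((c₀ + κ * (vl f x b : ℕ) : ℤ) : ℝ) * θ)‖ =
      1 / (h : ℝ) * ‖∑ b ∈ Icc 1 h, e (α * ⌊f ((x + b : ℕ) : ℝ)⌋)‖ := by
    have h2 : ∀ b ∈ Icc 1 h, ((1 / (h : ℝ) : ℝ) : ℂ) * ee (((c₀ + κ * (vl f x b : ℕ) : ℤ) : ℝ) * θ) =
        (((1 / (h : ℝ) : ℝ) : ℂ) * ee (c₀ * θ)) * e (α * ⌊f ((x + b : ℕ) : ℝ)⌋) := by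
      intro b hb
      have h3 : ((vl f x b : ℕ) : ℝ) = (⌊f ((x + b : ℕ) : ℝ)⌋ : ℤ) := by
        unfold vl
        exact natCast_floor_eq_intCast_floor (hb01 b hb).1
      rw [mul_assoc, ← Pool.Agent.N193.PS.ee_eq_e, ← ee_add]
      congr 2
      rw [hα, ← h3]
      push_cast
      ring
    rw [sum_congr rfl h2, ← mul_sum, norm_mul, norm_mul, norm_ee, mul_one, Complex.norm_real,
      Real.norm_of_nonneg (by positivity)]
  rw [hnorm]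
  have h2 := hk0 k hk x h f hf hxh hσx hxk K hK α h1
  calc 1 / (h : ℝ) * ‖∑ b ∈ Icc 1 h, e (α * ⌊f ((x + b : ℕ) : ℝ)⌋)‖ ≤ 1 / (h : ℝ) * (h / 2 ^ K) :=
        mul_le_mul_of_nonneg_left h2 (by positivity)
    _ = (1 / 2) ^ K := by
        rw [one_div, one_div, inv_pow]
        field_simp
    _ ≤ (1 / 2) ^ N := pow_le_pow_of_le_one (by norm_num) (by norm_num) (by omega)

open Classical in
/-- the property `P` of `c₀ + κ ⌊f n⌋` holds for all `n` in `(y - h, y]` up to a proportion of at most `τ` -/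
def AlmostB (f : ℕ → ℕ) (y h : ℕ) (κ c₀ : ℤ) (τ : ℝ) (P : ℤ → Prop) : Prop :=
  (((Ioc (y - h) y).filter (fun n : ℕ => ¬ P (c₀ + κ * (f n : ℕ)))).card : ℝ) ≤ τ * h

lemma AlmostB.mono {f : ℕ → ℕ} {y h : ℕ} {κ c₀ : ℤ} {τ : ℝ} {P Q : ℤ → Prop} (h' : AlmostB f y h κ c₀ τ P)
    (hPQ : ∀ n, P n → Q n) : AlmostB f y h κ c₀ τ Q := by
  classical
  unfold AlmostB at h' ⊢
  refine le_trans (Nat.cast_le.2 (card_le_card fun n hn => ?_)) h'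
  rw [mem_filter] at hn ⊢
  exact ⟨hn.1, fun hcon => hn.2 (hPQ _ hcon)⟩

/-- `log x ≤ (log y) ^ η` implies that a given power of `x` is at most `2 ^ K` for some admissible `K` -/
theorem size_ev (α β γ η ρ : ℝ) (hα : 0 < α) (hγ1 : 1 < γ) (hρ0 : 0 < ρ) (hηρ : η < γ * ρ) (W : ℕ) :
    ∀ᶠ L : ℝ in atTop, ∀ k : ℕ, α * L ^ γ + β ≤ k * Real.log 2 →
      4 * ((2 * W + 2) * L ^ η + 1) + 32 ≤ (k : ℝ) ^ ρ := by
  have hγ0 : 0 < γ := by linarith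
  filter_upwards [eventually_ge_atTop 10,
    Pool.Agent.U710.NB.ev_const (|β|) γ (α / 2) hγ0 (by positivity),
    Pool.Agent.U710.NB.ev_const 36 (γ * ρ) (1 / 2 * (α / 2) ^ ρ) (by positivity) (by positivity),
    Pool.Agent.U710.NB.ev_rpow η (γ * ρ) ((1 / 2 * (α / 2) ^ ρ) / (4 * (2 * W + 2))) hηρ (by positivity)]
    with L a1 a2 a3 a4
  intro k hk
  have hL0 : 0 < L := by linarith
  have hlog21 : Real.log 2 ≤ 1 := by linarith [Real.log_two_lt_d9]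
  have h1 : α / 2 * L ^ γ ≤ k := by
    have h2 : (k : ℝ) * Real.log 2 ≤ k * 1 := mul_le_mul_of_nonneg_left hlog21 (Nat.cast_nonneg _)
    have := neg_abs_le β
    linarith
  have h2 : (α / 2 * L ^ γ) ^ ρ ≤ (k : ℝ) ^ ρ := Real.rpow_le_rpow (by positivity) h1 hρ0.le
  rw [Real.mul_rpow (by positivity) (by positivity), ← Real.rpow_mul hL0.le] at h2
  refine le_trans ?_ h2
  have h3 : 4 * (2 * (W : ℝ) + 2) * L ^ η ≤ 1 / 2 * (α / 2) ^ ρ * L ^ (γ * ρ) := by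
    calc 4 * (2 * (W : ℝ) + 2) * L ^ η ≤ 4 * (2 * (W : ℝ) + 2) *
          ((1 / 2 * (α / 2) ^ ρ) / (4 * (2 * W + 2)) * L ^ (γ * ρ)) :=
          mul_le_mul_of_nonneg_left a4 (by positivity)
      _ = _ := by field_simp
  have h4 : (α / 2) ^ ρ * L ^ (γ * ρ) = 1 / 2 * (α / 2) ^ ρ * L ^ (γ * ρ) + 1 / 2 * (α / 2) ^ ρ * L ^ (γ * ρ) := by ring
  rw [h4]
  linarith

/-- The decay of the characteristic function for the blocks `(y - h, y]`, with a number of digits which controls all the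
arguments up to `exp ((log y) ^ η)`. -/
theorem sub_dec (α β γ η : ℝ) (hα : 0 < α) (hγ1 : 1 < γ) (hγ2 : γ < 3 / 2) (hη0 : 0 < η) (hη : η < 3 - 2 * γ) (A W : ℕ) :
    ∃ y0 : ℕ, ∀ y h : ℕ, y0 ≤ y → (y : ℝ) / Real.log y ^ A ≤ h → (h : ℝ) ≤ y / Real.log y →
    1 ≤ h ∧ h ≤ y ∧ ∃ K : ℕ, (∀ c₀ κ : ℤ, Decays 2 1 1 K (1 / 2) κ (Ioc (y - h) y) (fun _ => 1 / (h : ℝ))
      (fun n => c₀ + κ * (⌊ef α β γ n⌋₊ : ℕ))) ∧ ∀ z : ℕ, (z : ℝ) ≤ Real.exp (Real.log y ^ η) → z ^ W ≤ 2 ^ K := by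
  classical
  have hγ0 : 0 < γ := by linarith
  -- the exponents
  obtain ⟨σ, hσ⟩ : ∃ σ : ℝ, σ = (max (2 / 3) ((2 + η / γ) / 3) + 1 / γ) / 2 := ⟨_, rfl⟩
  have h1γ : 2 / 3 < 1 / γ := by
    rw [lt_div_iff₀ hγ0]
    linarith
  have h2γ : (2 + η / γ) / 3 < 1 / γ := by
    have h1 : η / γ < 3 / γ - 2 := by
      rw [div_lt_iff₀ hγ0, sub_mul, div_mul_cancel₀ _ hγ0.ne']
      linarith
    have h2 : 3 / γ = 3 * (1 / γ) := by ring
    linarith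
  have hmax : max (2 / 3) ((2 + η / γ) / 3) < 1 / γ := max_lt h1γ h2γ
  have hσ2 : σ < 1 / γ := by rw [hσ]; linarith
  have hσ1 : 2 / 3 < σ := by
    have := le_max_left (2 / 3) ((2 + η / γ) / 3)
    rw [hσ]
    linarith
  have hσ3 : η / γ < 3 * σ - 2 := by
    have := le_max_right (2 / 3) ((2 + η / γ) / 3)
    rw [hσ]
    linarith
  have h1γ1 : 1 / γ < 1 := by
    rw [div_lt_one hγ0]
    exact hγ1
  have hηγ : 0 < η / γ := div_pos hη0 hγ0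
  obtain ⟨ρ, hρ⟩ : ∃ ρ : ℝ, ρ = (η / γ + (3 * σ - 2)) / 2 := ⟨_, rfl⟩
  have hρ1 : ρ < 3 * σ - 2 := by rw [hρ]; linarith
  have hρη : η / γ < ρ := by rw [hρ]; linarith
  have hρ0 : 0 < ρ := by linarith
  have hρ2 : ρ < σ := by linarith
  have hρ3 : ρ < 1 := by linarith
  have hηρ : η < γ * ρ := by
    rw [div_lt_iff₀ hγ0] at hρη
    linarith
  obtain ⟨ζ, C, y1, hζ, hζ1, hC, hblk⟩ := ef_blk' α β γ hα hγ1 hγ2 σ hσ1 hσ2 A
  obtain ⟨k0, hdec⟩ := blk_decays ζ hζ hζ1 (A + 4) σ ρ hσ1 hρ0 hρ1 hρ2 hρ3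
  obtain ⟨y2, hy2⟩ := eventually_atTop.1
    ((Real.tendsto_log_atTop.comp (tendsto_natCast_atTop_atTop (R := ℝ))).eventually
      ((size_ev α β γ η ρ hα hγ1 hρ0 hηρ W).and (eventually_ge_atTop ((k0 : ℝ) + 1))))
  refine ⟨y1 + y2 + 2, fun y h hy hh1 hh2 => ?_⟩
  obtain ⟨b1, b2⟩ := hy2 y (by omega)
  simp only [Function.comp_apply] at b1 b2
  obtain ⟨e1, e2, e3, e4, e5⟩ := hblk y h (by omega) hh1 hh2
  refine ⟨e1, e2, ?_⟩
  obtain ⟨k, hk⟩ : ∃ k, k = kf α β γ y := ⟨_, rfl⟩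
  rw [← hk] at e3 e4 e5
  obtain ⟨L, hL⟩ : ∃ L : ℝ, L = Real.log y := ⟨_, rfl⟩
  rw [← hL] at b1 b2 e3 ⊢
  have hk0 : k0 ≤ k := by
    have : (k0 : ℝ) ≤ k := by linarith
    exact_mod_cast this
  have hkl : α * L ^ γ + β ≤ k * Real.log 2 := by
    have hlog2 : 0 < Real.log 2 := Real.log_pos (by norm_num)
    have h1 := Nat.lt_floor_add_one ((α * L ^ γ + β) / Real.log 2)
    rw [div_lt_iff₀ hlog2] at h1
    rw [hk, kf, ← hL]
    push_cast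
    exact h1.le
  have hsz := b1 k hkl
  have hLη : 0 ≤ L ^ η := Real.rpow_nonneg (by linarith [(Nat.cast_nonneg k0 : (0 : ℝ) ≤ k0)]) _
  obtain ⟨K, hK⟩ : ∃ K : ℕ, K = ⌈(2 * W + 2) * L ^ η⌉₊ := ⟨_, rfl⟩
  have hK1 : (2 * (W : ℝ) + 2) * L ^ η ≤ K := by rw [hK]; exact Nat.le_ceil _
  have hK2 : (K : ℝ) ≤ (2 * (W : ℝ) + 2) * L ^ η + 1 := by rw [hK]; exact (Nat.ceil_lt_add_one (by positivity)).le
  obtain ⟨x, hx⟩ : ∃ x : ℕ, x = y - h := ⟨_, rfl⟩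
  rw [← hx] at e4 ⊢
  have hxh : x + h = y := by omega
  have hxk : Real.log x ≤ k := by
    rcases Nat.eq_zero_or_pos x with h0 | h0
    · rw [h0]
      simp
    · refine le_trans ?_ e3
      rw [hL]
      exact Real.log_le_log (by exact_mod_cast h0) (by exact_mod_cast (by omega : x ≤ y))
  refine ⟨K, fun c₀ κ => ?_, fun z hz => ?_⟩
  · have hd := hdec k hk0 x h (ef α β γ) e4 hxk K (by linarith) c₀ κ
    have himg : Ioc x y = (Icc 1 h).image (fun b => x + b) := by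
      ext n
      rw [mem_Ioc, mem_image]
      constructor
      · intro hn
        exact ⟨n - x, by rw [mem_Icc]; omega, by omega⟩
      · rintro ⟨b, hb, rfl⟩
        rw [mem_Icc] at hb
        omega
    have hinj : Set.InjOn (fun b => x + b) ((Icc 1 h : Finset ℕ) : Set ℕ) := fun a _ b _ hab => by
      simp only at hab
      omega
    refine ⟨fun _ _ => by positivity, ?_, fun θ N hf hN => ?_⟩
    · rw [himg, sum_image hinj]
      exact hd.sum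
    · rw [himg, sum_image hinj]
      exact hd.char θ N hf hN
  · have h2 : (z : ℝ) ^ W ≤ (2 : ℝ) ^ K := by
      calc (z : ℝ) ^ W ≤ (Real.exp (L ^ η)) ^ W := pow_le_pow_left₀ (Nat.cast_nonneg _) hz W
        _ = Real.exp (W * L ^ η) := by rw [← Real.exp_nat_mul]
        _ ≤ Real.exp (K * Real.log 2) := by
            apply Real.exp_le_exp.2
            have h3 : (1 : ℝ) / 2 ≤ Real.log 2 := by linarith [Real.log_two_gt_d9]
            have h4 : (K : ℝ) * (1 / 2) ≤ K * Real.log 2 := mul_le_mul_of_nonneg_left h3 (Nat.cast_nonneg _)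
            have h5 : (2 * (W : ℝ) + 2) * L ^ η = 2 * (W * L ^ η) + 2 * L ^ η := by ring
            linarith
        _ = (2 : ℝ) ^ K := by rw [← Real.log_pow, Real.exp_log (by positivity)]
    exact_mod_cast h2

/-- From the decay of the characteristic function to almost all the values: a property of the values which holds up to a
proportion `τ` for all families of integers with decaying characteristic functions. -/
theorem sub_pass (α β γ η : ℝ) (hα : 0 < α) (hγ1 : 1 < γ) (hγ2 : γ < 3 / 2) (hη0 : 0 < η) (hη : η < 3 - 2 * γ) (A W : ℕ) :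
    ∃ y0 : ℕ, ∀ y h : ℕ, y0 ≤ y → (y : ℝ) / Real.log y ^ A ≤ h → (h : ℝ) ≤ y / Real.log y →
    ∀ (X : ℕ) (κ c₀ : ℤ) (Q : ℕ → ℤ → Prop) (τ : ℝ),
    (∀ (k : ℕ) (ι : Type) (Ω : Finset ι) (w : ι → ℝ) (v : ι → ℤ), Decays 2 1 1 k (1 / 2) κ Ω w v →
      ∀ E : Finset ι, E ⊆ Ω → (∀ i ∈ E, ¬ ∀ x : ℕ, X ≤ x → x ^ W ≤ 2 ^ k → Q x (v i)) → ∑ i ∈ E, w i ≤ τ) →
    AlmostB (fun n => ⌊ef α β γ n⌋₊) y h κ c₀ τ
      (fun n => ∀ x : ℕ, X ≤ x → (x : ℝ) ≤ Real.exp (Real.log y ^ η) → Q x n) := by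
  classical
  obtain ⟨y0, hy0⟩ := sub_dec α β γ η hα hγ1 hγ2 hη0 hη A W
  refine ⟨y0, fun y h hy hh1 hh2 X κ c₀ Q τ H => ?_⟩
  obtain ⟨e1, e2, K, hd, hW⟩ := hy0 y h hy hh1 hh2
  have hh0 : (0 : ℝ) < h := by exact_mod_cast e1
  have h1 := H K ℕ (Ioc (y - h) y) (fun _ => 1 / (h : ℝ)) _ (hd c₀ κ)
    ((Ioc (y - h) y).filter (fun n : ℕ => ¬ ∀ z : ℕ, X ≤ z → (z : ℝ) ≤ Real.exp (Real.log y ^ η) →
      Q z (c₀ + κ * (⌊ef α β γ n⌋₊ : ℕ))))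
    (filter_subset _ _) (fun n hn hcon => by
      rw [mem_filter] at hn
      exact hn.2 fun z hz hzL => hcon z hz (hW z hzL))
  rw [sum_const, nsmul_eq_mul, mul_one_div, div_le_iff₀ hh0] at h1
  unfold AlmostB
  convert h1 using 2

end Pool.Agent.U710.LE
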