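import Pool.Agent.N794.CG.Eng
import Pool.Agent.U710.LE.Y

set_option autoImplicit false

/-!
# From theorems on dominated families to the integers near the values of functions which grow faster than any power
-/

namespace Pool.Agent.U710.LE

open Finset Filter
open Pool.Agent.R459.Eq (Decays)
open Pool.Agent.N794.CG (Eng Mostly Dom dom_of_decays)

open Classical in
/-- All the integers near almost all the values. -/
theorem eng_sub {S : Type} {τ : ℕ → ℝ} {Q : S → ℕ → ℤ → Prop} (H : Eng τ Q) (α β γ η : ℝ) (hα : 0 < α) (hγ1 : 1 < γ)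
    (hγ2 : γ < 3 / 2) (hη0 : 0 < η) (hη : η < 3 - 2 * γ) (A : ℕ) (κ : ℤ) (hκ : κ ≠ 0) :
    ∃ X₀ y₀ : ℕ, ∀ X : ℕ, X₀ ≤ X → ∀ y h : ℕ, y₀ ≤ y → (y : ℝ) / Real.log y ^ A ≤ h → (h : ℝ) ≤ y / Real.log y →
      ∀ (c₀ : ℤ) (R : ℕ) (s : S),
      (((Ioc (y - h) y).filter (fun m : ℕ => ¬ ∀ n : ℤ, |n - (c₀ + κ * (⌊ef α β γ m⌋₊ : ℕ))| ≤ R → ∀ x : ℕ, X ≤ x →
        (x : ℝ) ≤ Real.exp (Real.log y ^ η) → Q s x n)).card : ℝ) ≤ (2 * (R : ℝ) + 1) * τ X * h := by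
  obtain ⟨W, hW, H1⟩ := H 2 le_rfl 1 (1 / 2) (by norm_num) (by norm_num)
  obtain ⟨X₀, J⟩ := H1 1 κ le_rfl hκ
  obtain ⟨y₀, hy₀⟩ := sub_dec α β γ η hα hγ1 hγ2 hη0 hη A W
  refine ⟨X₀, y₀, fun X hX y h hy hh1 hh2 c₀ R s => ?_⟩
  obtain ⟨g1, g2, K, hd, hWK⟩ := hy₀ y h hy hh1 hh2
  have hh0 : (0 : ℝ) < h := by exact_mod_cast g1
  obtain ⟨I, hI⟩ : ∃ I : Finset ℤ, I = Icc (-(R : ℤ)) R := ⟨_, rfl⟩
  have hIc : (I.card : ℝ) = 2 * (R : ℝ) + 1 := by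
    have h1 : I.card = 2 * R + 1 := by
      rw [hI, Int.card_Icc]
      omega
    rw [h1]
    push_cast
    ring
  obtain ⟨B, hB⟩ : ∃ B : ℤ → Finset ℕ, B = fun i => (Ioc (y - h) y).filter
      (fun m : ℕ => ¬ ∀ x : ℕ, X ≤ x → (x : ℝ) ≤ Real.exp (Real.log y ^ η) →
        Q s x (c₀ + i + κ * (⌊ef α β γ m⌋₊ : ℕ))) := ⟨_, rfl⟩
  have hBc : ∀ i, ((B i).card : ℝ) ≤ τ X * h := by
    intro i
    have h1 := J X hX K 1 ℕ _ _ _ (dom_of_decays (hd (c₀ + i) κ)) s (B i) (by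
      rw [hB]
      exact filter_subset _ _) (fun m hm hcon => by
        rw [hB] at hm
        exact (mem_filter.1 hm).2 fun x h3 h4 => hcon x h3 (hWK x h4))
    rw [sum_const, nsmul_eq_mul, mul_one_div, div_le_iff₀ hh0, one_mul] at h1
    exact h1
  have hsub : (Ioc (y - h) y).filter (fun m : ℕ => ¬ ∀ n : ℤ, |n - (c₀ + κ * (⌊ef α β γ m⌋₊ : ℕ))| ≤ R → ∀ x : ℕ, X ≤ x →
        (x : ℝ) ≤ Real.exp (Real.log y ^ η) → Q s x n) ⊆ I.biUnion B := by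
    intro m hm
    obtain ⟨hm1, hm2⟩ := mem_filter.1 hm
    push Not at hm2
    obtain ⟨n, g3, x, g4, g5, g6⟩ := hm2
    rw [mem_biUnion]
    refine ⟨n - (c₀ + κ * (⌊ef α β γ m⌋₊ : ℕ)), ?_, ?_⟩
    · rw [hI, mem_Icc]
      exact abs_le.1 g3
    · rw [hB]
      refine mem_filter.2 ⟨hm1, fun hcon => g6 ?_⟩
      have h2 := hcon x g4 g5
      have e1 : c₀ + (n - (c₀ + κ * (⌊ef α β γ m⌋₊ : ℕ))) + κ * (⌊ef α β γ m⌋₊ : ℕ) = n := by ring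
      rw [e1] at h2
      exact h2
  calc _ ≤ ((I.biUnion B).card : ℝ) := Nat.cast_le.2 (card_le_card hsub)
    _ ≤ ∑ i ∈ I, ((B i).card : ℝ) := by
        have h1 := card_biUnion_le (s := I) (t := B)
        exact_mod_cast h1
    _ ≤ ∑ _i ∈ I, τ X * h := sum_le_sum fun i _ => hBc i
    _ = (2 * (R : ℝ) + 1) * τ X * h := by
        rw [sum_const, nsmul_eq_mul, hIc]
        ring

end Pool.Agent.U710.LE
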