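import Pool.Agent.N794.CG.Pairs
import Pool.Agent.U710.LE.Z

set_option autoImplicit false

/-!
# Pairs of integers near the values of two functions which grow faster than any power
-/

namespace Pool.Agent.U710.LE

open Finset Filter
open Pool.Agent.R459.Eq
open Pool.Agent.N794.CG

open Classical in
/-- counts of primes with a property of two residues, for all pairs of integers near almost all pairs of values -/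
theorem sub_pairs (α₁ β₁ γ₁ α₂ β₂ γ₂ η δ : ℝ) (hα₁ : 0 < α₁) (hγ₁ : 1 < γ₁) (hγ₁' : γ₁ < 3 / 2) (hα₂ : 0 < α₂)
    (hγ₂ : 1 < γ₂) (hγ₂' : γ₂ < 3 / 2) (hη0 : 0 < η) (hη₁ : η < 3 - 2 * γ₁) (hη₂ : η < 3 - 2 * γ₂) (hδ : 0 < δ)
    (hδ1 : δ ≤ 1 / 2) (κ₁ κ₂ : ℤ) (hκ₁ : κ₁ ≠ 0) (hκ₂ : κ₂ ≠ 0) (A : ℕ) :
    ∃ X₀ y₀ : ℕ, ∀ X : ℕ, X₀ ≤ X → ∀ y₁ h₁ y₂ h₂ : ℕ, y₀ ≤ y₁ → y₀ ≤ y₂ →
      (y₁ : ℝ) / Real.log y₁ ^ A ≤ h₁ → (h₁ : ℝ) ≤ y₁ / Real.log y₁ →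
      (y₂ : ℝ) / Real.log y₂ ^ A ≤ h₂ → (h₂ : ℝ) ≤ y₂ / Real.log y₂ → ∀ (e₁ e₂ : ℤ) (R : ℕ)
      (T : ℕ → ℕ → ℤ → ℤ → Prop),
      (∀ j p : ℕ, p.Prime → ∀ a a' n n' : ℤ, (p : ℤ) ∣ a - a' → (p : ℤ) ∣ n - n' → (T j p a n ↔ T j p a' n')) →
      (∀ p : ℕ, p.Prime → ∀ (a n : ℤ) (Q : Finset ℕ), (∀ j ∈ Q, T j p a n) → Q.card ≤ Nat.log 2 p + 3) →
      (((Ioc (y₁ - h₁) y₁ ×ˢ Ioc (y₂ - h₂) y₂).filter (fun z : ℕ × ℕ => ¬ ∀ a n : ℤ,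
        |a - (e₁ + κ₁ * (⌊ef α₁ β₁ γ₁ z.1⌋₊ : ℕ))| ≤ R → |n - (e₂ + κ₂ * (⌊ef α₂ β₂ γ₂ z.2⌋₊ : ℕ))| ≤ R → ∀ x : ℕ, X ≤ x →
        (x : ℝ) ≤ Real.exp (Real.log y₁ ^ η) → (x : ℝ) ≤ Real.exp (Real.log y₂ ^ η) → ∀ j : ℕ, (j : ℝ) ≤ (x : ℝ) ^ (δ / 2) →
        |(cntR (T j) a n x : ℝ) - ∑ p ∈ pri x, dens2 (T j) p| ≤
          3 * √(max 1 (∑ p ∈ pri (4 * x), dens2 (T j) p)) * (x : ℝ) ^ (2 * δ))).card : ℝ) ≤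
        4 * (2 * (R : ℝ) + 1) ^ 2 * (X : ℝ) ^ (-(δ / 2)) * ((h₁ : ℝ) * h₂) := by
  obtain ⟨W, hW, H⟩ := eng_fine δ hδ hδ1 2 le_rfl 1 (1 / 2) (by norm_num) (by norm_num)
  obtain ⟨X₁, J₁⟩ := H 1 κ₁ le_rfl hκ₁
  obtain ⟨X₂, J₂⟩ := H 1 κ₂ le_rfl hκ₂
  obtain ⟨y₁₀, hy₁⟩ := sub_dec α₁ β₁ γ₁ η hα₁ hγ₁ hγ₁' hη0 hη₁ A (2 * W)
  obtain ⟨y₂₀, hy₂⟩ := sub_dec α₂ β₂ γ₂ η hα₂ hγ₂ hγ₂' hη0 hη₂ A (2 * W)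
  refine ⟨X₁ + X₂ + 2, y₁₀ + y₂₀, fun X hX y₁ h₁ y₂ h₂ hyy₁ hyy₂ ha₁ hb₁ ha₂ hb₂ e₁ e₂ R T hper hfew => ?_⟩
  obtain ⟨g₁, g₁', K₁, hd₁, hW₁⟩ := hy₁ y₁ h₁ (by omega) ha₁ hb₁
  obtain ⟨g₂, g₂', K₂, hd₂, hW₂⟩ := hy₂ y₂ h₂ (by omega) ha₂ hb₂
  have hcard : ∀ y h : ℕ, h ≤ y → (Ioc (y - h) y).card = h := fun y h hh => by rw [Nat.card_Ioc]; omega
  have hone : ∀ y h : ℕ, h ≤ y → ∑ _i ∈ Ioc (y - h) y, 1 / ((Ioc (y - h) y).card : ℝ) ≤ 1 := by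
    intro y h _
    rw [sum_const, nsmul_eq_mul, mul_one_div]
    exact div_self_le_one _
  have hrange : ∀ (x N : ℕ), 2 ≤ x → x ^ (2 * W) ≤ N → x ^ W ≤ N ∧ (2 * x) ^ W ≤ N := by
    intro x N hx h
    have h1 : (2 * x) ^ W ≤ x ^ (2 * W) := by
      rw [pow_mul]
      exact Nat.pow_le_pow_left (by nlinarith) W
    have h2 : x ^ W ≤ (2 * x) ^ W := Nat.pow_le_pow_left (by omega) W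
    exact ⟨h2.trans (h1.trans h), h1.trans h⟩
  obtain ⟨P, hP⟩ : ∃ P : ℕ → ℕ → ℤ → ℤ → Prop, P = fun x j a n =>
        |(cntR (T j) a n x : ℝ) - ∑ p ∈ pri x, dens2 (T j) p| ≤
          3 * √(max 1 (∑ p ∈ pri (4 * x), dens2 (T j) p)) * (x : ℝ) ^ (2 * δ) := ⟨_, rfl⟩
  -- one pair of integers for every pair of places
  have hbase : ∀ i₁ i₂ : ℤ, (((Ioc (y₁ - h₁) y₁ ×ˢ Ioc (y₂ - h₂) y₂).filter (fun z : ℕ × ℕ => ¬ ∀ x : ℕ, X ≤ x →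
        (x : ℝ) ≤ Real.exp (Real.log y₁ ^ η) → (x : ℝ) ≤ Real.exp (Real.log y₂ ^ η) → ∀ j : ℕ, (j : ℝ) ≤ (x : ℝ) ^ (δ / 2) →
        P x j (e₁ + i₁ + κ₁ * (⌊ef α₁ β₁ γ₁ z.1⌋₊ : ℕ)) (e₂ + i₂ + κ₂ * (⌊ef α₂ β₂ γ₂ z.2⌋₊ : ℕ)))).card : ℝ) ≤
        4 * (X : ℝ) ^ (-(δ / 2)) * ((h₁ : ℝ) * h₂) := by
    intro i₁ i₂
    have F₁ : FineAt δ X (fun x => x ^ W ≤ 2 ^ K₁) (2 * (X : ℝ) ^ (-(δ / 2))) (Ioc (y₁ - h₁) y₁)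
        (fun _ => 1 / ((Ioc (y₁ - h₁) y₁).card : ℝ)) (fun u => e₁ + i₁ + κ₁ * (⌊ef α₁ β₁ γ₁ u⌋₊ : ℕ)) := by
      intro s
      rw [hcard y₁ h₁ g₁']
      have h1 := J₁ X (by omega) K₁ 1 ℕ _ _ _ (dom_of_decays (hd₁ (e₁ + i₁) κ₁)) s
      rw [one_mul] at h1
      exact h1
    have F₂ : FineAt δ X (fun x => x ^ W ≤ 2 ^ K₂) (2 * (X : ℝ) ^ (-(δ / 2))) (Ioc (y₂ - h₂) y₂)
        (fun _ => 1 / ((Ioc (y₂ - h₂) y₂).card : ℝ)) (fun u => e₂ + i₂ + κ₂ * (⌊ef α₂ β₂ γ₂ u⌋₊ : ℕ)) := by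
      intro s
      rw [hcard y₂ h₂ g₂']
      have h1 := J₂ X (by omega) K₂ 1 ℕ _ _ _ (dom_of_decays (hd₂ (e₂ + i₂) κ₂)) s
      rw [one_mul] at h1
      exact h1
    have h1 := pairs_card (Ioc (y₁ - h₁) y₁) (Ioc (y₂ - h₂) y₂) _ (filter_subset _ _) _
      (pairs_count (Ω₁ := Ioc (y₁ - h₁) y₁) (Ω₂ := Ioc (y₂ - h₂) y₂) (w₁ := fun _ => 1 / ((Ioc (y₁ - h₁) y₁).card : ℝ))
        (w₂ := fun _ => 1 / ((Ioc (y₂ - h₂) y₂).card : ℝ))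
        (fun _ _ => by positivity) (fun _ _ => by positivity) (hone _ _ g₁') (hone _ _ g₂') hδ hδ1 (by omega : 1 ≤ X)
        (by positivity) F₁ F₂ T hper hfew
        ((Ioc (y₁ - h₁) y₁ ×ˢ Ioc (y₂ - h₂) y₂).filter (fun z : ℕ × ℕ => ¬ ∀ x : ℕ, X ≤ x →
          (x : ℝ) ≤ Real.exp (Real.log y₁ ^ η) → (x : ℝ) ≤ Real.exp (Real.log y₂ ^ η) → ∀ j : ℕ, (j : ℝ) ≤ (x : ℝ) ^ (δ / 2) →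
          P x j (e₁ + i₁ + κ₁ * (⌊ef α₁ β₁ γ₁ z.1⌋₊ : ℕ)) (e₂ + i₂ + κ₂ * (⌊ef α₂ β₂ γ₂ z.2⌋₊ : ℕ)))) (filter_subset _ _) (by
          intro z hz
          have h2 := (mem_filter.1 hz).2
          push Not at h2
          obtain ⟨x, hXx, h3, h4, j, h5, h6⟩ := h2
          have hx2 : 2 ≤ x := by omega
          have k1 := hrange x _ hx2 (hW₁ x h3)
          have k2 := hrange x _ hx2 (hW₂ x h4)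
          rw [hP] at h6
          exact ⟨x, hXx, k1.1, k1.2, k2.1, j, h5, not_le.1 h6⟩))
    rw [hcard y₁ h₁ g₁', hcard y₂ h₂ g₂'] at h1
    exact h1.trans (le_of_eq (by ring))
  -- all the pairs near them
  obtain ⟨I, hI⟩ : ∃ I : Finset (ℤ × ℤ), I = Icc (-(R : ℤ)) R ×ˢ Icc (-(R : ℤ)) R := ⟨_, rfl⟩
  have hIc : (I.card : ℝ) = (2 * (R : ℝ) + 1) ^ 2 := by
    have h1 : I.card = (2 * R + 1) * (2 * R + 1) := by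
      rw [hI, card_product, Int.card_Icc]
      congr 1 <;> omega
    rw [h1]
    push_cast
    ring
  obtain ⟨B, hB⟩ : ∃ B : ℤ × ℤ → Finset (ℕ × ℕ), B = fun i => (Ioc (y₁ - h₁) y₁ ×ˢ Ioc (y₂ - h₂) y₂).filter
      (fun z : ℕ × ℕ => ¬ ∀ x : ℕ, X ≤ x →
        (x : ℝ) ≤ Real.exp (Real.log y₁ ^ η) → (x : ℝ) ≤ Real.exp (Real.log y₂ ^ η) → ∀ j : ℕ, (j : ℝ) ≤ (x : ℝ) ^ (δ / 2) →
        P x j (e₁ + i.1 + κ₁ * (⌊ef α₁ β₁ γ₁ z.1⌋₊ : ℕ)) (e₂ + i.2 + κ₂ * (⌊ef α₂ β₂ γ₂ z.2⌋₊ : ℕ))) := ⟨_, rfl⟩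
  have hsub : (Ioc (y₁ - h₁) y₁ ×ˢ Ioc (y₂ - h₂) y₂).filter (fun z : ℕ × ℕ => ¬ ∀ a n : ℤ,
        |a - (e₁ + κ₁ * (⌊ef α₁ β₁ γ₁ z.1⌋₊ : ℕ))| ≤ R → |n - (e₂ + κ₂ * (⌊ef α₂ β₂ γ₂ z.2⌋₊ : ℕ))| ≤ R → ∀ x : ℕ, X ≤ x →
        (x : ℝ) ≤ Real.exp (Real.log y₁ ^ η) → (x : ℝ) ≤ Real.exp (Real.log y₂ ^ η) → ∀ j : ℕ, (j : ℝ) ≤ (x : ℝ) ^ (δ / 2) →
        |(cntR (T j) a n x : ℝ) - ∑ p ∈ pri x, dens2 (T j) p| ≤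
          3 * √(max 1 (∑ p ∈ pri (4 * x), dens2 (T j) p)) * (x : ℝ) ^ (2 * δ)) ⊆ I.biUnion B := by
    intro z hz
    obtain ⟨hz1, hz2⟩ := mem_filter.1 hz
    push Not at hz2
    obtain ⟨a, n, g1, g2, x, g3, g4, g5, j, g6, g7⟩ := hz2
    rw [mem_biUnion]
    refine ⟨(a - (e₁ + κ₁ * (⌊ef α₁ β₁ γ₁ z.1⌋₊ : ℕ)), n - (e₂ + κ₂ * (⌊ef α₂ β₂ γ₂ z.2⌋₊ : ℕ))), ?_, ?_⟩
    · rw [hI, mem_product, mem_Icc, mem_Icc]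
      exact ⟨abs_le.1 g1, abs_le.1 g2⟩
    · rw [hB]
      refine mem_filter.2 ⟨hz1, fun hcon => not_le.2 g7 ?_⟩
      have h2 := hcon x g3 g4 g5 j g6
      have e1 : e₁ + (a - (e₁ + κ₁ * (⌊ef α₁ β₁ γ₁ z.1⌋₊ : ℕ))) + κ₁ * (⌊ef α₁ β₁ γ₁ z.1⌋₊ : ℕ) = a := by ring
      have e2 : e₂ + (n - (e₂ + κ₂ * (⌊ef α₂ β₂ γ₂ z.2⌋₊ : ℕ))) + κ₂ * (⌊ef α₂ β₂ γ₂ z.2⌋₊ : ℕ) = n := by ring
      simp only at h2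
      rw [e1, e2, hP] at h2
      exact h2
  calc _ ≤ ((I.biUnion B).card : ℝ) := Nat.cast_le.2 (card_le_card hsub)
    _ ≤ ∑ i ∈ I, ((B i).card : ℝ) := by
        have h1 := card_biUnion_le (s := I) (t := B)
        exact_mod_cast h1
    _ ≤ ∑ _i ∈ I, 4 * (X : ℝ) ^ (-(δ / 2)) * ((h₁ : ℝ) * h₂) := by
        apply sum_le_sum
        intro i _
        rw [hB]
        exact hbase i.1 i.2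
    _ = 4 * (2 * (R : ℝ) + 1) ^ 2 * (X : ℝ) ^ (-(δ / 2)) * ((h₁ : ℝ) * h₂) := by
        rw [sum_const, nsmul_eq_mul, hIc]
        ring

end Pool.Agent.U710.LE
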