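import Pool.Agent.U710.LE.P
import Pool.Agent.U710.LE.I

set_option autoImplicit false

/-!
# From the class of distributions to numbers: neighbourhoods of the values
-/

namespace Pool.Agent.U710.LE

open Finset Filter

open Classical in
/-- windows -/
theorem win_of (α β γ : ℝ) (hα : 0 < α) (hγ1 : 1 < γ) (hγ2 : γ < 3 / 2) (κ : ℤ) (A B W U : ℕ) (P : ℤ → Prop)
    (hP : ∀ (ζ σ : ℝ) (a : ℕ), 0 < ζ → ζ ≤ 1 → 2 / 3 < σ → ∃ k₀ : ℕ, ∀ k : ℕ, k₀ ≤ k → ∀ p, LC ζ σ a k p →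
      ∀ c : ℤ, |c| ≤ B * (2 : ℤ) ^ k →
      ∑ v ∈ range (2 ^ k), (if (∀ m : ℤ, |m - (c + κ * (v : ℕ))| ≤ (k : ℤ) ^ W → P m) then 0 else p v) ≤
        1 / (k : ℝ) ^ U) :
    ∃ y0 : ℕ, ∀ y h : ℕ, y0 ≤ y → (y : ℝ) / Real.log y ^ A ≤ h → (h : ℝ) ≤ y / Real.log y →
      ∀ c : ℤ, |c| ≤ B * (⌊ef α β γ y⌋₊ : ℤ) → 1 ≤ h ∧ h ≤ y ∧
      (((Ioc (y - h) y).filter (fun n : ℕ => ¬ ∀ m : ℤ,
        |(m : ℝ) - (c + κ * (⌊ef α β γ n⌋₊ : ℕ))| ≤ Real.log n ^ W → P m)).card : ℝ) ≤ h / Real.log y ^ U := by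
  obtain ⟨ζ, σ, hζ, hζ1, hσ, hlaw⟩ := ef_law α β γ hα hγ1 hγ2 A
  obtain ⟨k0, hk0⟩ := hP ζ σ (A + 4) hζ hζ1 hσ
  obtain ⟨y0, hy0⟩ := hlaw (k0 + 1)
  obtain ⟨y2, hy2⟩ := eventually_atTop.1
    ((Real.tendsto_log_atTop.comp (tendsto_natCast_atTop_atTop (R := ℝ))).eventually (eventually_ge_atTop (1 : ℝ)))
  refine ⟨y0 + y2 + 2, fun y h hy hh1 hh2 c hc => ?_⟩
  have b1 := hy2 y (by omega)
  simp only [Function.comp_apply] at b1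
  obtain ⟨c1, c2, c3, c4, c5, c6⟩ := hy0 y h (by omega) hh1 hh2
  refine ⟨c1, c2, ?_⟩
  obtain ⟨N, hN⟩ : ∃ N, N = ⌊ef α β γ y⌋₊ := ⟨_, rfl⟩
  rw [← hN] at hc c3 c4 c5 c6
  have hNd : (N : ℤ) ≤ (2 : ℤ) ^ dg N := by exact_mod_cast (lt_dg N).le
  have hcb : |c| ≤ B * (2 : ℤ) ^ dg N := hc.trans (mul_le_mul_of_nonneg_left hNd (by positivity))
  have h1 := c6 (fun v => ∀ m : ℤ, |m - (c + κ * (v : ℕ))| ≤ (dg N : ℤ) ^ W → P m) (1 / (dg N : ℝ) ^ U)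
    (fun p hp => hk0 (dg N) (by omega) p hp c hcb)
  have h2 : (h : ℝ) * (1 / (dg N : ℝ) ^ U) ≤ h / Real.log y ^ U := by
    rw [mul_one_div]
    apply div_le_div_of_nonneg_left (Nat.cast_nonneg _) (by positivity)
    exact pow_le_pow_left₀ (by linarith) c5 U
  refine le_trans ?_ (h1.trans h2)
  apply Nat.cast_le.2
  apply card_le_card
  intro n hn
  rw [mem_filter] at hn ⊢
  refine ⟨hn.1, fun hq => hn.2 fun m hm => hq m ?_⟩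
  rw [mem_Ioc] at hn
  have h3 : Real.log n ≤ dg N := by
    refine le_trans ?_ c5
    apply Real.log_le_log (by exact_mod_cast (by omega : 0 < n))
    exact_mod_cast hn.1.2
  have h4 : 0 ≤ Real.log (n : ℝ) := Real.log_natCast_nonneg n
  have h5 : |(m : ℝ) - (c + κ * (⌊ef α β γ n⌋₊ : ℕ))| ≤ (dg N : ℝ) ^ W := hm.trans (pow_le_pow_left₀ h4 h3 W)
  have h6 : ((|m - (c + κ * (⌊ef α β γ n⌋₊ : ℕ))| : ℤ) : ℝ) ≤ (((dg N : ℤ) ^ W : ℤ) : ℝ) := by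
    push_cast
    exact h5
  exact_mod_cast h6

open Classical in
/-- windows, and all integers -/
theorem near_of (α β γ : ℝ) (hα : 0 < α) (hγ1 : 1 < γ) (hγ2 : γ < 3 / 2) (κ : ℤ) (W : ℕ) (P : ℤ → Prop)
    (hP : ∀ (ζ σ : ℝ) (a B U : ℕ), 0 < ζ → ζ ≤ 1 → 2 / 3 < σ → ∃ k₀ : ℕ, ∀ k : ℕ, k₀ ≤ k → ∀ p, LC ζ σ a k p →
      ∀ c : ℤ, |c| ≤ B * (2 : ℤ) ^ k →
      ∑ v ∈ range (2 ^ k), (if (∀ m : ℤ, |m - (c + κ * (v : ℕ))| ≤ (k : ℤ) ^ W → P m) then 0 else p v) ≤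
        1 / (k : ℝ) ^ U) (U : ℕ) :
    (∀ A B : ℕ, ∀ᶠ y : ℕ in atTop, ∀ h : ℕ, (y : ℝ) / Real.log y ^ A ≤ h → (h : ℝ) ≤ y / Real.log y →
      ∀ c : ℤ, |c| ≤ B * (⌊ef α β γ y⌋₊ : ℤ) →
      (((Ioc (y - h) y).filter (fun n : ℕ => ¬ ∀ m : ℤ,
        |(m : ℝ) - (c + κ * (⌊ef α β γ n⌋₊ : ℕ))| ≤ Real.log n ^ W → P m)).card : ℝ) ≤ h / Real.log y ^ U) ∧
    ∀ c : ℤ, ∀ᶠ X : ℕ in atTop, (((Icc 1 X).filter (fun n : ℕ => ¬ ∀ m : ℤ,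
        |(m : ℝ) - (c + κ * (⌊ef α β γ n⌋₊ : ℕ))| ≤ Real.log n ^ W → P m)).card : ℝ) ≤ X / Real.log X ^ U := by
  constructor
  · intro A B
    obtain ⟨y0, hy0⟩ := win_of α β γ hα hγ1 hγ2 κ A B W U P (fun ζ σ a h1 h2 h3 => hP ζ σ a B U h1 h2 h3)
    filter_upwards [eventually_ge_atTop y0] with y hy h h1 h2 c hc
    exact (hy0 y h hy h1 h2 c hc).2.2
  · intro c
    obtain ⟨y0, hy0⟩ := win_of α β γ hα hγ1 hγ2 κ 2 c.natAbs W (U + 1) P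
      (fun ζ σ a h1 h2 h3 => hP ζ σ a _ _ h1 h2 h3)
    obtain ⟨ζ, σ, hζ, hζ1, hσ, hlaw⟩ := ef_law α β γ hα hγ1 hγ2 2
    obtain ⟨y1, hy1⟩ := hlaw 0
    obtain ⟨Bad, hBad⟩ : ∃ Bad : ℕ → Prop, Bad = fun n : ℕ => ¬ ∀ m : ℤ,
        |(m : ℝ) - (c + κ * (⌊ef α β γ n⌋₊ : ℕ))| ≤ Real.log n ^ W → P m := ⟨_, rfl⟩
    have h6 : ∀ᶠ X : ℕ in atTop, (((Icc 1 X).filter Bad).card : ℝ) ≤ X / Real.log X ^ U := by
      apply global Bad U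
      refine ⟨y0 + y1, fun y h hy h1 h2 => ?_⟩
      obtain ⟨-, -, c3, -⟩ := hy1 y h (by omega) h1 h2
      have h5 : |c| ≤ (c.natAbs : ℕ) * (⌊ef α β γ y⌋₊ : ℤ) := by
        rw [Int.abs_eq_natAbs]
        have h4 : (1 : ℤ) ≤ (⌊ef α β γ y⌋₊ : ℤ) := by
          generalize ⌊ef α β γ y⌋₊ = z at c3 ⊢
          omega
        nlinarith [Int.natCast_nonneg c.natAbs]
      obtain ⟨d1, d2, d3⟩ := hy0 y h (by omega) h1 h2 c h5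
      refine ⟨d1, d2, le_trans (Nat.cast_le.2 (card_le_card fun n hn => ?_)) d3⟩
      rw [mem_filter] at hn ⊢
      rw [hBad] at hn
      exact hn
    filter_upwards [h6] with X hX
    refine le_trans (Nat.cast_le.2 (card_le_card fun n hn => ?_)) hX
    rw [mem_filter] at hn ⊢
    rw [hBad]
    exact hn

end Pool.Agent.U710.LE
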