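import Pool.Agent.U710.LE.I
import Pool.Agent.N193.PS.Tl

set_option autoImplicit false

/-!
The large spectrum of the multiples of the values is thin.
-/

namespace Pool.Agent.U710.LE

open Finset Filter Topology
open Pool.Agent.H807R2.Dav (ee norm_ee ee_add)
open Pool.Agent.Y885 (TLaw Thin Spec)

/-- the large spectrum of the multiples of the values is thin -/
theorem LC_tlaw (ζ : ℝ) (hζ : 0 < ζ) (hζ1 : ζ ≤ 1) (a : ℕ) (σ : ℝ) (hσ : 2 / 3 < σ) (κ : ℤ) (hκ : κ ≠ 0) (H V : ℕ) :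
    ∃ C₀ m₀ : ℕ, ∀ m : ℕ, m₀ ≤ m → ∀ p, LC ζ σ a m p →
    ∀ e g : ℕ, 2 ^ e ≤ m ^ H → 1 ≤ g → g ≤ m ^ H → ∀ cc : ℤ, ∀ K, K = m + e →
    TLaw 2 3 C₀ V K (range (2 ^ m)) p (fun v => (g : ℤ) * (cc + κ * (v : ℕ))) := by
  obtain ⟨A, m₀, hA⟩ := LC_valsum ζ hζ hζ1 a (V + 1) σ hσ
  obtain ⟨m₂, hm₂⟩ : ∃ m₂ : ℕ, ∀ m : ℕ, m₂ ≤ m → m ^ H < 2 ^ m := by
    have h1 := (isLittleO_pow_const_const_pow_of_one_lt (R := ℝ) H (by norm_num : (1 : ℝ) < 2)).bound
      (show (0 : ℝ) < 1 / 2 by norm_num)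
    obtain ⟨m₂, h2⟩ := eventually_atTop.mp h1
    refine ⟨m₂, fun m hm => ?_⟩
    have h3 := h2 m hm
    rw [Real.norm_of_nonneg (by positivity), Real.norm_of_nonneg (by positivity)] at h3
    have h4 : (0 : ℝ) < 2 ^ m := by positivity
    have h5 : (m : ℝ) ^ H < 2 ^ m := by linarith
    exact_mod_cast h5
  obtain ⟨E, hE⟩ : ∃ E, E = H + A + 2 := ⟨_, rfl⟩
  refine ⟨2 * E + 1, m₀ + m₂ + κ.natAbs + 2 ^ (V + 1) + 15, fun m hm p hp e g he hg1 hg2 cc K hK => ?_⟩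
  obtain ⟨hma, hmb, hmc, hmd, hm15⟩ : m₀ ≤ m ∧ m₂ ≤ m ∧ κ.natAbs ≤ m ∧ 2 ^ (V + 1) ≤ m ∧ 15 ≤ m := by
    generalize 2 ^ (V + 1) = w at *
    refine ⟨?_, ?_, ?_, ?_, ?_⟩ <;> omega
  have hsum := LC_sum ζ σ a m p hp
  have hem : e < m := by
    by_contra hcon
    push Not at hcon
    have h1 : 2 ^ m ≤ 2 ^ e := Nat.pow_le_pow_right (by norm_num) hcon
    have h2 := hm₂ m hmb
    omega
  have hK2 : K ≤ 2 * m := by omega
  obtain ⟨x, h, f, hB, hpv⟩ := id hp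
  have hh0 : (0 : ℝ) < h := by exact_mod_cast hB.1
  have hm1 : (1 : ℝ) ≤ m := by exact_mod_cast (by omega : 1 ≤ m)
  have hm0 : (0 : ℝ) < m := by linarith
  have hK1 : (1 : ℝ) ≤ K := by exact_mod_cast (by omega : 1 ≤ K)
  have hK2r : (K : ℝ) ≤ 2 * m := by exact_mod_cast hK2
  obtain ⟨G, hG⟩ : ∃ G : ℤ, G = g * κ := ⟨_, rfl⟩
  have hG0 : G ≠ 0 := by
    rw [hG]
    exact mul_ne_zero (by exact_mod_cast (by omega : g ≠ 0)) hκ
  obtain ⟨M, hM⟩ : ∃ M : ℕ, M = 2 ^ (K + 1) := ⟨_, rfl⟩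
  have hMpos : 0 < M := by rw [hM]; positivity
  have hM0 : (0 : ℝ) < M := by exact_mod_cast hMpos
  -- the elements of the spectrum
  have hspec : ∀ t ∈ Spec 2 V K (range (2 ^ m)) p (fun v => (g : ℤ) * (cc + κ * (v : ℕ))),
      ∃ q : ℤ, |G * t - q * M| ≤ (m ^ E : ℕ) := by
    intro t ht
    unfold Spec at ht
    rw [mem_filter, ← hM] at ht
    obtain ⟨_, ht⟩ := ht
    by_contra hcon
    push Not at hcon
    obtain ⟨θ0, hθ0⟩ : ∃ θ0, θ0 = (t : ℝ) / (M : ℝ) := ⟨_, rfl⟩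
    rw [← hθ0] at ht
    have hcond : ∀ q : ℤ, (m : ℝ) ^ A ≤ |(G : ℝ) * θ0 - q| * 2 ^ m := by
      intro q
      have h1 : ((m ^ E : ℕ) : ℤ) < |G * t - q * M| := hcon q
      have h2 : (m : ℝ) ^ E ≤ |(G : ℝ) * t - q * M| := by
        have h3 : ((m ^ E : ℕ) : ℝ) ≤ ((|G * t - q * M| : ℤ) : ℝ) := by exact_mod_cast h1.le
        rw [Int.cast_abs] at h3
        push_cast at h3
        exact h3
      have h3 : |(G : ℝ) * t - q * M| = |(G : ℝ) * θ0 - q| * M := by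
        rw [hθ0]
        have : (G : ℝ) * t - q * M = ((G : ℝ) * (t / M) - q) * M := by field_simp
        rw [this, abs_mul, abs_of_pos hM0]
      rw [h3] at h2
      have h5 : (m : ℝ) ^ E / M * 2 ^ m ≤ |(G : ℝ) * θ0 - q| * 2 ^ m := by
        apply mul_le_mul_of_nonneg_right _ (by positivity)
        rw [div_le_iff₀ hM0]
        exact h2
      refine le_trans ?_ h5
      have h6 : (m : ℝ) ^ E / M * 2 ^ m = (m : ℝ) ^ (H + A + 2) / (2 * 2 ^ e) := by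
        rw [hM, hE, hK]
        push_cast
        have e2 : (2 : ℝ) ^ (m + e + 1) = 2 ^ m * 2 ^ e * 2 := by rw [pow_succ, pow_add]
        rw [e2]
        field_simp
      rw [h6, le_div_iff₀ (by positivity)]
      have h8 : (2 : ℝ) ^ e ≤ (m : ℝ) ^ H := by exact_mod_cast he
      have h9 : (2 : ℝ) ≤ m := by exact_mod_cast (by omega : 2 ≤ m)
      calc (m : ℝ) ^ A * (2 * 2 ^ e) ≤ (m : ℝ) ^ A * (m * (m : ℝ) ^ H) := by
            apply mul_le_mul_of_nonneg_left _ (by positivity)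
            exact mul_le_mul h9 h8 (by positivity) (by positivity)
        _ = (m : ℝ) ^ (H + A + 1) := by rw [pow_succ, pow_add]; ring
        _ ≤ (m : ℝ) ^ (H + A + 2) := pow_le_pow_right₀ hm1 (by omega)
    have hmain := hA m hma x h f hB ((G : ℝ) * θ0) hcond
    have h3 : ∑ v ∈ range (2 ^ m), ((p v : ℝ) : ℂ) * ee (((((g : ℤ) * (cc + κ * (v : ℕ)) : ℤ)) : ℝ) * θ0) =
        (1 / (h : ℂ)) * ee (g * cc * θ0) * ∑ b ∈ Icc 1 h, ee ((G : ℝ) * θ0 * (vl f x b : ℕ)) := by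
      rw [← LC_sum' x h (2 ^ m) f (vl_lt ζ σ a m x h f hB) (fun v => ee ((G : ℝ) * θ0 * (v : ℕ))), mul_sum]
      refine sum_congr rfl fun v _ => ?_
      rw [hpv, nsmul_eq_mul]
      have h4 : ee (((((g : ℤ) * (cc + κ * (v : ℕ)) : ℤ)) : ℝ) * θ0) = ee (g * cc * θ0) * ee ((G : ℝ) * θ0 * (v : ℕ)) := by
        rw [← ee_add, hG]
        congr 1
        push_cast
        ring
      rw [h4]
      push_cast
      ring
    rw [h3, norm_mul, norm_mul, norm_ee, mul_one, norm_div, norm_one, Complex.norm_natCast] at ht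
    have h4 : 1 / (h : ℝ) * ‖∑ b ∈ Icc 1 h, ee ((G : ℝ) * θ0 * (vl f x b : ℕ))‖ ≤ 1 / (K : ℝ) ^ V := by
      calc 1 / (h : ℝ) * ‖∑ b ∈ Icc 1 h, ee ((G : ℝ) * θ0 * (vl f x b : ℕ))‖ ≤
          1 / (h : ℝ) * (h / (m : ℝ) ^ (V + 1)) := mul_le_mul_of_nonneg_left hmain (by positivity)
        _ = 1 / (m : ℝ) ^ (V + 1) := by field_simp
        _ ≤ 1 / (K : ℝ) ^ V := by
            apply one_div_le_one_div_of_le (by positivity)
            have h9 : (K : ℝ) / 2 ≤ m := by linarith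
            have h10 : (2 : ℝ) ^ (V + 1) ≤ (K : ℝ) := by
              have : m ≤ K := by omega
              exact_mod_cast hmd.trans this
            calc (K : ℝ) ^ V ≤ ((K : ℝ) / 2) ^ (V + 1) := by
                  rw [div_pow, le_div_iff₀ (by positivity), pow_succ]
                  exact mul_le_mul_of_nonneg_left h10 (by positivity)
              _ ≤ _ := pow_le_pow_left₀ (by positivity) h9 _
    linarith
  have hlt : ∀ t ∈ Spec 2 V K (range (2 ^ m)) p (fun v => (g : ℤ) * (cc + κ * (v : ℕ))), t < M := by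
    intro t ht
    unfold Spec at ht
    rw [mem_filter, mem_range, ← hM] at ht
    exact ht.1
  have hcard := Pool.Agent.N193.PS.few_near G hG0 M (m ^ E) hMpos _ hlt hspec
  obtain ⟨S, hS⟩ : ∃ S, S = Spec 2 V K (range (2 ^ m)) p (fun v => (g : ℤ) * (cc + κ * (v : ℕ))) := ⟨_, rfl⟩
  rw [← hS] at hcard hlt
  have hcard2 : S.card ≤ K ^ (2 * E + 1) := by
    have h1 : G.natAbs ≤ m ^ E := by
      rw [hG, Int.natAbs_mul, Int.natAbs_natCast, hE]
      calc g * κ.natAbs ≤ m ^ H * m := Nat.mul_le_mul hg2 hmc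
        _ = m ^ (H + 1) := by rw [pow_succ]
        _ ≤ m ^ (H + A + 2) := Nat.pow_le_pow_right (by omega) (by omega)
    have h2 : 1 ≤ m ^ E := Nat.one_le_pow _ _ (by omega)
    calc S.card ≤ (2 * (G.natAbs + m ^ E) + 1) * (2 * m ^ E + 1) := hcard
      _ ≤ (5 * m ^ E) * (3 * m ^ E) := Nat.mul_le_mul (by omega) (by omega)
      _ = 15 * (m ^ E * m ^ E) := by ring
      _ ≤ m * (m ^ E * m ^ E) := Nat.mul_le_mul_right _ hm15
      _ = m ^ (2 * E + 1) := by rw [pow_succ, two_mul, pow_add]; ring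
      _ ≤ K ^ (2 * E + 1) := Nat.pow_le_pow_left (by omega) _
  refine ⟨fun v _ => LC_nonneg ζ σ a m p hp v, hsum.le, ?_⟩
  rw [← hS]
  refine ⟨fun t ht => by rw [← hM]; exact hlt t ht, fun i _ => ?_, fun j x _ => ?_, ?_⟩
  · exact Nat.mul_le_mul (card_image_le.trans hcard2) (Nat.pow_le_pow_right (by norm_num) (Nat.div_le_self _ _))
  · exact Nat.mul_le_mul ((card_filter_le _ _).trans hcard2) (Nat.pow_le_pow_right (by norm_num) (Nat.div_le_self _ _))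
  · exact Nat.mul_le_mul hcard2 (Nat.pow_le_pow_right (by norm_num) (by omega))

end Pool.Agent.U710.LE
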