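import Pool.Agent.U710.LE.P
import Pool.Agent.U710.LE.I
import Pool.Agent.N625.DY.O
import Pool.Agent.TH872.GQ.Dual

set_option autoImplicit false

/-!
# Primes in progressions to large moduli, on average over residues near the values
-/

namespace Pool.Agent.U710.LE

open Finset Filter
open Pool.Agent.N625.DY (Err Level cls_level_near)

/-- sizes -/
theorem sizes2 (B m : ℕ) (ε : ℝ) (hε : 0 < ε) : ∃ k₀ : ℕ, ∀ k : ℕ, k₀ ≤ k →
    1 ≤ Real.log (((B + 1) * 2 ^ k : ℕ) : ℝ) ∧ Real.log (((B + 1) * 2 ^ k : ℕ) : ℝ) ≤ (k : ℝ) ^ 2 ∧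
    (((2 ^ k : ℕ) : ℝ) ^ (1 - ε)) * (k : ℝ) ^ m ≤ (((B + 1) * 2 ^ k : ℕ) : ℝ) := by
  obtain ⟨k1, h1⟩ := exists_nat_ge (1 + Real.log ((B + 1 : ℕ) : ℝ))
  have hε' : 0 < ε * Real.log 2 := by
    have := Real.log_pos (by norm_num : (1 : ℝ) < 2)
    positivity
  have hlim : ∀ᶠ x : ℝ in Filter.atTop, x ^ m ≤ Real.exp (ε * Real.log 2 * x) := by
    have h := isLittleO_pow_exp_pos_mul_atTop m hε'
    filter_upwards [h.bound (show (0 : ℝ) < 1 by norm_num), Filter.eventually_ge_atTop (0 : ℝ)] with x hx hx0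
    rw [one_mul, Real.norm_of_nonneg (by positivity), Real.norm_of_nonneg (Real.exp_pos _).le] at hx
    exact hx
  obtain ⟨k2, h2⟩ := eventually_atTop.1 (tendsto_natCast_atTop_atTop.eventually hlim)
  refine ⟨k1 + k2 + 2, fun k hk => ?_⟩
  have hk2 : (2 : ℝ) ≤ k := by exact_mod_cast (by omega : 2 ≤ k)
  have hB1 : (1 : ℝ) ≤ ((B + 1 : ℕ) : ℝ) := by exact_mod_cast Nat.succ_pos B
  have hlB := Real.log_nonneg hB1
  have e1 : Real.log (((B + 1) * 2 ^ k : ℕ) : ℝ) = Real.log ((B + 1 : ℕ) : ℝ) + k * Real.log 2 := by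
    rw [Nat.cast_mul, Real.log_mul (by positivity) (by positivity)]
    congr 1
    push_cast
    rw [Real.log_pow]
  have hl2 := Real.log_two_gt_d9
  have hl3 := Real.log_two_lt_d9
  have hk1 : 1 + Real.log ((B + 1 : ℕ) : ℝ) ≤ k := h1.trans (by exact_mod_cast (by omega : k1 ≤ k))
  refine ⟨?_, ?_, ?_⟩
  · rw [e1]
    nlinarith
  · rw [e1]
    nlinarith
  · have h3 := h2 k (by omega)
    have e2 : ((2 ^ k : ℕ) : ℝ) = Real.exp (k * Real.log 2) := by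
      push_cast
      rw [← Real.log_pow, Real.exp_log (by positivity)]
    have e3 : (((2 ^ k : ℕ) : ℝ) ^ (1 - ε)) = Real.exp (k * Real.log 2 * (1 - ε)) := by
      rw [e2, ← Real.exp_mul]
    calc (((2 ^ k : ℕ) : ℝ) ^ (1 - ε)) * (k : ℝ) ^ m ≤ Real.exp (k * Real.log 2 * (1 - ε)) * Real.exp (ε * Real.log 2 * k) := by
          rw [e3]
          exact mul_le_mul_of_nonneg_left h3 (Real.exp_pos _).le
      _ = ((2 ^ k : ℕ) : ℝ) := by
          rw [← Real.exp_add, e2]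
          congr 1
          ring
      _ ≤ (((B + 1) * 2 ^ k : ℕ) : ℝ) := by exact_mod_cast Nat.le_mul_of_pos_left _ (Nat.succ_pos B)

open Classical in
/-- absolute values over the moduli, residues near the values -/
theorem near_avg (α β γ : ℝ) (hα : 0 < α) (hγ1 : 1 < γ) (hγ2 : γ < 3 / 2) (κ : ℤ) (hκ : κ ≠ 0) (A B T W U : ℕ) (ε : ℝ)
    (hε : 0 < ε) :
    ∀ᶠ y : ℕ in atTop, ∀ h : ℕ, (y : ℝ) / Real.log y ^ A ≤ h → (h : ℝ) ≤ y / Real.log y →
      ∀ c : ℤ, |c| ≤ B * (⌊ef α β γ y⌋₊ : ℤ) → ∀ (w : ℕ → ℝ) (a : ℕ → ℕ), (∀ n, |w n| ≤ Real.log y ^ T) →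
      (∀ n ∈ Ioc (y - h) y, w n ≠ 0 → 0 < a n ∧ |(a n : ℝ) - (c + κ * (⌊ef α β γ n⌋₊ : ℕ))| ≤ Real.log y ^ W) →
      ∀ x : ℕ → ℕ, (∀ q, x q ≤ B * ⌊ef α β γ y⌋₊) → ∀ Q : ℕ, (Q : ℝ) ≤ (⌊ef α β γ y⌋₊ : ℝ) ^ (1 - ε) →
      ∑ q ∈ Icc 1 Q, (q.divisors.card : ℝ) ^ T * |∑ n ∈ (Ioc (y - h) y).filter (fun n => (a n).Coprime q),
        w n * Err (x q) q (a n)| ≤ h * ((⌊ef α β γ y⌋₊ : ℝ) / Real.log y ^ U) := by
  obtain ⟨T₁, U₁, m, k1, habs⟩ := Pool.Agent.TH872.GQ.absolute T (U + 1)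
  obtain ⟨ζ, σ, hζ, hζ1, hσ, hlaw⟩ := ef_law α β γ hα hγ1 hγ2 A
  have hε2 : 0 < ε := hε
  obtain ⟨k2, h2⟩ := cls_level_near (clsV ζ hζ hζ1 (A + 4) σ hσ κ hκ).toCls B (T₁ + 1) W (U₁ + 1) ε hε2
  obtain ⟨k3, h3⟩ := sizes2 (B + 1) m ε hε2
  obtain ⟨y0, hy0⟩ := hlaw (k1 + k2 + k3 + 2 * (B + 2) + 4)
  obtain ⟨y2, hy2⟩ := eventually_atTop.1
    ((Real.tendsto_log_atTop.comp (tendsto_natCast_atTop_atTop (R := ℝ))).eventually
      (eventually_ge_atTop (((2 * (B + 2) + 2 : ℕ) : ℝ))))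
  filter_upwards [eventually_ge_atTop (y0 + y2 + 2)] with y hy h hh1 hh2 c hc w a hw ha x hx Q hQ
  have b1 := hy2 y (by omega)
  simp only [Function.comp_apply] at b1
  obtain ⟨c1, c2, c3, c4, c5, c6⟩ := hy0 y h (by omega) hh1 hh2
  obtain ⟨N, hN⟩ : ∃ N, N = ⌊ef α β γ y⌋₊ := ⟨_, rfl⟩
  rw [← hN] at hc hx hQ c3 c4 c5 c6 ⊢
  obtain ⟨k, hk⟩ : ∃ k, k = dg N := ⟨_, rfl⟩
  rw [← hk] at c4 c5 c6
  have hNk : N < 2 ^ k := by rw [hk]; exact lt_dg N
  have hkN : 2 ^ k ≤ 2 * N := by rw [hk]; exact dg_le N (by omega)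
  obtain ⟨s1, s2, s3⟩ := h3 k (by omega)
  have hk1 : (1 : ℝ) ≤ k := by exact_mod_cast (by omega : 1 ≤ k)
  have hk0 : (0 : ℝ) < k := by linarith
  have hL0 : 0 < Real.log (y : ℝ) := lt_of_lt_of_le (by positivity) b1
  have hh0 : (0 : ℝ) < h := by exact_mod_cast c1
  obtain ⟨X, hX⟩ : ∃ X : ℕ, X = (B + 1 + 1) * 2 ^ k := ⟨_, rfl⟩
  rw [← hX] at s1 s2 s3
  have hcb : |c| ≤ B * (2 : ℤ) ^ k := hc.trans (mul_le_mul_of_nonneg_left (by exact_mod_cast hNk.le) (by positivity))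
  have hNr : (0 : ℝ) < N := by exact_mod_cast (by omega : 0 < N)
  have hQk : (Q : ℝ) ≤ ((2 ^ k : ℕ) : ℝ) ^ (1 - ε) := by
    rcases le_or_gt ε 1 with h1 | h1
    · exact hQ.trans (Real.rpow_le_rpow hNr.le (by exact_mod_cast hNk.le) (by linarith))
    · have h5 : (Q : ℝ) < 1 := by
        refine hQ.trans_lt (Real.rpow_lt_one_of_one_lt_of_neg ?_ (by linarith))
        exact_mod_cast (by omega : 1 < N)
      have h6 : Q = 0 := by
        have : Q < 1 := by exact_mod_cast h5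
        omega
      rw [h6, Nat.cast_zero]
      positivity
  have hQX : (Q : ℝ) * (k : ℝ) ^ m ≤ X := (mul_le_mul_of_nonneg_right hQk (by positivity)).trans s3
  obtain ⟨Ω, hΩ⟩ : ∃ Ω, Ω = (Ioc (y - h) y).filter (fun n => w n ≠ 0) := ⟨_, rfl⟩
  obtain ⟨X', hX'⟩ : ∃ X' : ℕ, X' = B * N := ⟨_, rfl⟩
  have hXX : X' ≤ X := by
    rw [hX', hX]
    exact Nat.mul_le_mul (by omega) hNk.le
  have hΩc : (Ω.card : ℝ) ≤ h := by
    have h1 : Ω.card ≤ (Ioc (y - h) y).card := by rw [hΩ]; exact card_filter_le _ _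
    rw [Nat.card_Ioc] at h1
    exact_mod_cast (by omega : Ω.card ≤ h)
  have hyp : Pool.Agent.TH872.GQ.Hyp k X X' Q T₁ U₁ Ω (fun _ : ℕ => 1 / (h : ℝ)) a := by
    intro lam hlam E _ hE
    obtain ⟨lam', hlam'⟩ : ∃ lam' : ℕ → ℝ, lam' = fun q => if q ≤ Q then lam q else 0 := ⟨_, rfl⟩
    have hb' : ∀ q, |lam' q| ≤ (k : ℝ) ^ (T₁ + 1) := by
      intro q
      have h5 : (k : ℝ) ^ T₁ ≤ (k : ℝ) ^ (T₁ + 1) := pow_le_pow_right₀ hk1 (by omega)
      rw [hlam']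
      simp only
      split_ifs
      · exact (hlam q).trans h5
      · rw [abs_zero]; positivity
    have h5 := c6 (fun v => ∀ y' : ℤ, |y' - (c + κ * (v : ℕ))| ≤ (k : ℤ) ^ W → 0 < y' →
        ∀ l : Fin 1, Level 2 B (U₁ + 1) k ε lam' y'.toNat) (1 / (k : ℝ) ^ (U₁ + 1))
      (fun p hp => h2 k (by omega) p hp c hcb 1 (by rw [Nat.cast_one]; exact one_le_pow₀ hk1) (fun _ => lam') (fun _ q => hb' q))
    have h6 : ∑ n ∈ Ω, (if E n then 1 / (h : ℝ) else 0) ≤ 1 / (k : ℝ) ^ (U₁ + 1) := by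
      rw [← sum_filter, sum_const, nsmul_eq_mul, mul_one_div, div_le_iff₀ hh0, mul_comm]
      refine le_trans (Nat.cast_le.2 (card_le_card fun n hn => ?_)) h5
      rw [mem_filter] at hn ⊢
      obtain ⟨hn1, hn2⟩ := hn
      obtain ⟨x', hx', hW'⟩ := hE n hn1 hn2
      rw [hΩ, mem_filter] at hn1
      obtain ⟨ha1, ha2⟩ := ha n hn1.1 hn1.2
      refine ⟨hn1.1, fun hcon => ?_⟩
      have h7 : |((a n : ℤ)) - (c + κ * (⌊ef α β γ n⌋₊ : ℕ))| ≤ (k : ℤ) ^ W := by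
        have h8 : |(a n : ℝ) - (c + κ * (⌊ef α β γ n⌋₊ : ℕ))| ≤ (k : ℝ) ^ W :=
          ha2.trans (pow_le_pow_left₀ hL0.le c5 W)
        have h9 : ((|((a n : ℤ)) - (c + κ * (⌊ef α β γ n⌋₊ : ℕ))| : ℤ) : ℝ) ≤ (((k : ℤ) ^ W : ℤ) : ℝ) := by
          push_cast
          exact h8
        exact_mod_cast h9
      have h8 := hcon (a n : ℤ) h7 (by exact_mod_cast ha1) 0 x' (by
        refine hx'.trans ?_
        rw [hX']
        exact Nat.mul_le_mul_left _ hNk.le)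
      rw [Int.toNat_natCast] at h8
      have hsub : (Icc 1 Q).filter (fun q => (a n).Coprime q) ⊆
          (Icc 1 ⌊((2 ^ k : ℕ) : ℝ) ^ (1 - ε)⌋₊).filter (fun q => (a n).Coprime q) := by
        intro q hq
        rw [mem_filter, mem_Icc] at hq ⊢
        exact ⟨⟨hq.1.1, hq.1.2.trans (Nat.le_floor hQk)⟩, hq.2⟩
      have h9 : ∑ q ∈ (Icc 1 ⌊((2 ^ k : ℕ) : ℝ) ^ (1 - ε)⌋₊).filter (fun q => (a n).Coprime q), lam' q * Err x' q (a n) =
          Pool.Agent.TH212.EH.W lam Q x' (a n) := by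
        rw [← sum_subset hsub]
        · unfold Pool.Agent.TH212.EH.W
          refine sum_congr rfl fun q hq => ?_
          rw [mem_filter, mem_Icc] at hq
          rw [hlam']
          simp only [if_pos hq.1.2]
          rfl
        · intro q hq hq'
          rw [mem_filter, mem_Icc] at hq hq'
          have h10 : ¬ q ≤ Q := fun h11 => hq' ⟨⟨hq.1.1, h11⟩, hq.2⟩
          rw [hlam']
          simp only [if_neg h10, zero_mul]
      rw [h9] at h8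
      have h10 : ((2 ^ k : ℕ) : ℝ) / (k : ℝ) ^ (U₁ + 1) ≤ X / (k : ℝ) ^ U₁ := by
        have e1 : ((2 ^ k : ℕ) : ℝ) ≤ X := by
          rw [hX]
          exact_mod_cast Nat.le_mul_of_pos_left _ (by omega)
        exact div_le_div₀ (Nat.cast_nonneg _) e1 (by positivity) (pow_le_pow_right₀ hk1 (by omega))
      linarith
    refine h6.trans ?_
    exact one_div_le_one_div_of_le (by positivity) (pow_le_pow_right₀ hk1 (by omega))
  have hp1 : ∑ _n ∈ Ω, 1 / (h : ℝ) ≤ 1 := by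
    rw [sum_const, nsmul_eq_mul, mul_one_div, div_le_one hh0]
    exact hΩc
  have key := habs k (by omega) X X' Q hXX s1 s2 hQX ℕ Ω (fun _ => 1 / (h : ℝ)) (fun _ _ => by positivity) hp1 a hyp w
    (fun n => (hw n).trans (pow_le_pow_left₀ hL0.le c5 T)) x (fun q => by rw [hX']; exact hx q)
  have e1 : ∀ q, |∑ n ∈ (Ioc (y - h) y).filter (fun n => (a n).Coprime q), w n * Err (x q) q (a n)| =
      h * |∑ n ∈ Ω.filter (fun n => (a n).Coprime q), 1 / (h : ℝ) * (w n *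
        (Pool.Agent.W93.LV.Fu (fun n => ArithmeticFunction.vonMangoldt n) (x q) q (a n) - (x q : ℝ) / Nat.totient q))| := by
    intro q
    rw [← mul_sum, abs_mul, abs_of_pos (by positivity : (0 : ℝ) < 1 / h), ← mul_assoc, mul_one_div_cancel hh0.ne', one_mul]
    congr 1
    rw [hΩ, filter_filter]
    symm
    have hsub : (Ioc (y - h) y).filter (fun n => w n ≠ 0 ∧ (a n).Coprime q) ⊆
        (Ioc (y - h) y).filter (fun n => (a n).Coprime q) := by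
      intro n hn
      rw [mem_filter] at hn ⊢
      exact ⟨hn.1, hn.2.2⟩
    rw [← sum_subset hsub]
    · rfl
    · intro n hn hn'
      rw [mem_filter] at hn hn'
      have h10 : w n = 0 := by
        by_contra h11
        exact hn' ⟨hn.1, h11, hn.2⟩
      rw [h10, zero_mul]
  have e2 : ∑ q ∈ Icc 1 Q, (q.divisors.card : ℝ) ^ T * |∑ n ∈ (Ioc (y - h) y).filter (fun n => (a n).Coprime q),
      w n * Err (x q) q (a n)| = h * ∑ q ∈ Icc 1 Q, (q.divisors.card : ℝ) ^ T *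
        |∑ n ∈ Ω.filter (fun n => (a n).Coprime q), 1 / (h : ℝ) * (w n *
        (Pool.Agent.W93.LV.Fu (fun n => ArithmeticFunction.vonMangoldt n) (x q) q (a n) - (x q : ℝ) / Nat.totient q))| := by
    rw [mul_sum]
    refine sum_congr rfl fun q _ => ?_
    rw [e1]
    ring
  rw [e2]
  apply mul_le_mul_of_nonneg_left _ hh0.le
  refine key.trans ?_
  have f1 : (X : ℝ) ≤ 2 * (B + 2) * N := by
    have : X ≤ 2 * (B + 2) * N := by
      rw [hX]
      calc (B + 1 + 1) * 2 ^ k ≤ (B + 1 + 1) * (2 * N) := Nat.mul_le_mul_left _ hkN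
        _ = 2 * (B + 2) * N := by ring
    exact_mod_cast this
  have f2 : (2 * (B + 2) : ℝ) ≤ k := by
    push_cast at b1
    linarith
  have f3 : Real.log (y : ℝ) ^ U ≤ (k : ℝ) ^ U := pow_le_pow_left₀ hL0.le c5 U
  rw [div_le_div_iff₀ (by positivity) (by positivity)]
  calc (X : ℝ) * Real.log y ^ U ≤ (k * N) * (k : ℝ) ^ U := by
        apply mul_le_mul _ f3 (by positivity) (by positivity)
        exact f1.trans (mul_le_mul_of_nonneg_right f2 hNr.le)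
    _ = N * (k : ℝ) ^ (U + 1) := by rw [pow_succ]; ring

end Pool.Agent.U710.LE
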